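import Mathlib

set_option autoImplicit false

/-!
Linearised Cayley-Hamilton theorem for matrices over commutative `ℚ`-algebras all of whose positive
powers are traceless.
-/

namespace Pool.Agent.Helper884.LieId

open Matrix Polynomial
open Finset.HasAntidiagonal (antidiagonal)

section

variable {n : Type*} [Fintype n] [DecidableEq n]

/-- First-order expansion of the determinant. -/
theorem coeff_one_det {R : Type*} [CommRing R] (M G W : Matrix n n R) (hG : M * G = 1) :
    (det (M.map C + (X : R[X]) • W.map C)).coeff 1 = M.det * trace (G * W) := by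
  have h : M.map C + (X : R[X]) • W.map C =
      (M.map C) * (1 + (X : R[X]) • (G * W).map C) := by
    rw [mul_add, mul_one, mul_smul_comm, Matrix.map_mul, ← mul_assoc, ← Matrix.map_mul, hG]
    simp
  rw [h, det_mul]
  have h2 : det (M.map (C : R → R[X])) = C (det M) := (RingHom.map_det C M).symm
  rw [h2, coeff_C_mul, coeff_det_one_add_X_smul_one]

/-- Cayley-Hamilton in terms of the reverse characteristic polynomial. -/
theorem rch {R : Type*} [CommRing R] (M : Matrix n n R) :
    ∑ k ∈ Finset.range (Fintype.card n + 1), M.charpolyRev.coeff k • M ^ (Fintype.card n - k) = 0 := by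
  nontriviality R
  have h := aeval_self_charpoly M
  have hdeg := charpoly_natDegree_eq_dim M
  rw [aeval_eq_sum_range, hdeg] at h
  rw [← h, ← Finset.sum_range_reflect]
  refine Finset.sum_congr rfl fun k hk => ?_
  rw [Finset.mem_range] at hk
  rw [← reverse_charpoly, coeff_reverse, hdeg, revAt_le (by omega)]
  congr 3 <;> omega

/-- The geometric series of a matrix, as a matrix of power series. -/
noncomputable def geo {R : Type*} [CommRing R] (M : Matrix n n R) : Matrix n n (PowerSeries R) :=
  Matrix.of fun i j => PowerSeries.mk fun k => (M ^ k) i j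

theorem geo_mul {R : Type*} [CommRing R] (M : Matrix n n R) :
    (1 - (PowerSeries.X : PowerSeries R) • M.map (PowerSeries.C (R := R))) * geo M = 1 := by
  ext i j k
  rw [sub_mul, one_mul, smul_mul_assoc, Matrix.sub_apply, Matrix.smul_apply, smul_eq_mul, map_sub]
  cases k with
  | zero =>
    simp [geo, Matrix.one_apply]
  | succ k =>
    rw [PowerSeries.coeff_succ_X_mul]
    simp only [geo, Matrix.mul_apply, Matrix.map_apply, Matrix.of_apply, PowerSeries.coeff_mk,
      map_sum, PowerSeries.coeff_C_mul]
    rw [pow_succ', Matrix.mul_apply, sub_self, Matrix.one_apply]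
    split_ifs <;> simp [PowerSeries.coeff_one]

theorem trace_geo_mul {R : Type*} [CommRing R] (M W : Matrix n n R) :
    trace (geo M * W.map (PowerSeries.C (R := R))) = PowerSeries.mk fun k => trace (M ^ k * W) := by
  ext k
  simp only [Matrix.trace, Matrix.diag_apply, Matrix.mul_apply, geo, Matrix.map_apply,
    Matrix.of_apply, PowerSeries.coeff_mk, map_sum, PowerSeries.coeff_mul_C]

/-- `det (1 - t M)` at `t = T + X`. -/
theorem comp_charpolyRev {R : Type*} [CommRing R] (M : Matrix n n R) (T : R) :
    M.charpolyRev.comp (X + C T) =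
      det ((1 - T • M).map C + (X : R[X]) • (-M).map C) := by
  rw [charpolyRev, ← coe_compRingHom_apply, RingHom.map_det]
  congr 1
  ext i j : 1
  simp only [RingHom.mapMatrix_apply, Matrix.map_apply, Matrix.sub_apply, Matrix.smul_apply,
    smul_eq_mul, map_sub, map_mul, coe_compRingHom_apply, Matrix.add_apply, Matrix.neg_apply,
    map_neg, C_comp, X_comp]
  have : ((1 : Matrix n n R[X]) i j).comp (X + C T) = C ((1 : Matrix n n R) i j) := by
    rw [Matrix.one_apply, Matrix.one_apply]
    split_ifs <;> simp
  rw [this]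
  ring

theorem charpolyRev_eq_one {R : Type*} [CommRing R] [Algebra ℚ R] (M : Matrix n n R)
    (hM : ∀ k, trace (M ^ (k + 1)) = 0) : M.charpolyRev = 1 := by
  -- the derivative vanishes
  have hmap : (M.map (PowerSeries.C (R := R))).charpolyRev =
      M.charpolyRev.map (PowerSeries.C (R := R)) := by
    rw [charpolyRev, charpolyRev, ← coe_mapRingHom, RingHom.map_det]
    congr 1
    ext i j : 1
    simp only [RingHom.mapMatrix_apply, Matrix.map_apply, Matrix.sub_apply, Matrix.smul_apply,
      smul_eq_mul, coe_mapRingHom, Polynomial.map_sub, Polynomial.map_mul, Polynomial.map_C,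
      Polynomial.map_X]
    congr 1
    rw [Matrix.one_apply, Matrix.one_apply]
    split_ifs <;> simp
  have h1 : (taylor (PowerSeries.X : PowerSeries R)
      (M.map (PowerSeries.C (R := R))).charpolyRev).coeff 1 = 0 := by
    rw [taylor_apply, comp_charpolyRev, coeff_one_det _ (geo M) _ (geo_mul M)]
    rw [mul_neg, trace_neg, trace_geo_mul]
    have : (PowerSeries.mk fun k => trace (M ^ k * M)) = (0 : PowerSeries R) := by
      ext k
      rw [PowerSeries.coeff_mk, ← pow_succ, hM k]
      simp
    rw [this]
    simp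
  rw [taylor_coeff_one, hmap, derivative_map, eval_map, eval₂_C_X_eq_coe] at h1
  have h2 : derivative M.charpolyRev = 0 := by
    apply Polynomial.coe_injective
    simpa using h1
  have h3 : ∀ k, M.charpolyRev.coeff (k + 1) = 0 := by
    intro k
    have h4 := congrArg (fun q => coeff q k) h2
    simp only [coeff_derivative, coeff_zero] at h4
    have h5 : (M.charpolyRev.coeff (k + 1)) = ((k + 1 : ℚ)⁻¹) •
        (M.charpolyRev.coeff (k + 1) * ((k : R) + 1)) := by
      have : ((k : R) + 1) = algebraMap ℚ R (k + 1) := by simp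
      rw [this, Algebra.smul_def, mul_left_comm, ← map_mul, inv_mul_cancel₀ (by positivity)]
      simp
    rw [h5, h4, smul_zero]
  ext k
  cases k with
  | zero => rw [coeff_zero_eq_eval_zero, eval_charpolyRev]; simp
  | succ k => rw [h3 k, coeff_one]; simp

theorem pow_card_eq_zero {R : Type*} [CommRing R] [Algebra ℚ R] (M : Matrix n n R)
    (hM : ∀ k, trace (M ^ (k + 1)) = 0) : M ^ Fintype.card n = 0 := by
  have h := rch M
  rw [charpolyRev_eq_one M hM, Finset.sum_range_succ'] at h
  simpa [coeff_one] using h

omit [DecidableEq n] in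
/-- Coefficients of degree one. -/
theorem map_coeff_mul {R : Type*} [CommRing R] (M M' : Matrix n n R[X]) :
    (M * M').map (coeff · 1) =
      M.map (coeff · 1) * M'.map (coeff · 0) + M.map (coeff · 0) * M'.map (coeff · 1) := by
  ext i j
  simp only [Matrix.map_apply, Matrix.add_apply, Matrix.mul_apply, finsetSum_coeff,
    ← Finset.sum_add_distrib]
  refine Finset.sum_congr rfl fun k _ => ?_
  rw [mul_coeff_one]
  ring

theorem map_coeff_zero_pow {R : Type*} [CommRing R] (B z : Matrix n n R) (m : ℕ) :
    ((B.map C + (X : R[X]) • z.map C) ^ m).map (coeff · 0) = B ^ m := by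
  have h : ∀ M : Matrix n n R[X], M.map (coeff · 0) = (constantCoeff (R := R)).mapMatrix M := by
    intro M; ext i j; simp [Polynomial.constantCoeff_apply]
  rw [h, map_pow, ← h]
  congr 1
  ext i j
  simp

/-- The sum of `B ^ i * z * B ^ j` over `i + j = m`. -/
def hh {A : Type*} [Ring A] (B : A) (m : ℕ) (z : A) : A :=
  ∑ p ∈ antidiagonal m, B ^ p.1 * z * B ^ p.2

theorem hh_zero {A : Type*} [Ring A] (B z : A) : hh B 0 z = z := by simp [hh]

theorem hh_succ {A : Type*} [Ring A] (B z : A) (m : ℕ) :
    hh B (m + 1) z = hh B m z * B + B ^ (m + 1) * z := by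
  rw [hh, Finset.Nat.sum_antidiagonal_succ', hh, Finset.sum_mul, add_comm]
  simp only [pow_zero, mul_one, pow_succ, mul_assoc]

theorem hh_succ' {A : Type*} [Ring A] (B z : A) (m : ℕ) :
    hh B (m + 1) z = B * hh B m z + z * B ^ (m + 1) := by
  rw [hh, Finset.Nat.sum_antidiagonal_succ, hh, Finset.mul_sum, add_comm]
  simp only [pow_zero, one_mul, pow_succ', mul_assoc]

theorem map_coeff_one_pow {R : Type*} [CommRing R] (B z : Matrix n n R) (m : ℕ) :
    ((B.map C + (X : R[X]) • z.map C) ^ (m + 1)).map (coeff · 1) = hh B m z := by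
  induction m with
  | zero =>
    rw [zero_add, pow_one, hh_zero]
    ext i j
    simp
  | succ m ih =>
    have h0 := map_coeff_zero_pow B z 1
    have h1 : (B.map C + (X : R[X]) • z.map C).map (coeff · 1) = z := by
      ext i j
      simp
    rw [pow_one] at h0
    rw [pow_succ, map_coeff_mul, ih, map_coeff_zero_pow, hh_succ, h0, h1, pow_one]

/-- Swap of the roles of two polynomial variables. -/
theorem coeff_eval₂_swap {R : Type*} [CommRing R] (p : (R[X])[X]) (m : ℕ) :
    ((p.eval₂ (mapRingHom (C : R →+* R[X])) (C X)).coeff 1).coeff m = (p.coeff m).coeff 1 := by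
  induction p using Polynomial.induction_on' with
  | add p q hp hq => rw [eval₂_add, coeff_add, coeff_add, hp, hq, coeff_add, coeff_add]
  | monomial k a =>
    rw [eval₂_monomial, ← C_pow, coeff_mul_C, coe_mapRingHom, coeff_map, coeff_C_mul, coeff_X_pow,
      coeff_monomial]
    by_cases h : m = k
    · subst h; simp
    · rw [if_neg h, if_neg (fun h' => h h'.symm)]; simp

theorem coeff_charpolyRev_perturb {R : Type*} [CommRing R] [Algebra ℚ R] (B z : Matrix n n R)
    (hB : ∀ k, trace (B ^ (k + 1)) = 0) (m : ℕ) :
    ((B.map C + (X : R[X]) • z.map C).charpolyRev.coeff (m + 1)).coeff 1 =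
      - trace (B ^ m * z) := by
  rw [← coeff_eval₂_swap]
  set B' := B.map C + (X : R[X]) • z.map C with hB'
  set G : Matrix n n R[X] :=
    ∑ k ∈ Finset.range (Fintype.card n), (X : R[X]) ^ k • (B ^ k).map C with hG
  have hN : B ^ Fintype.card n = 0 := pow_card_eq_zero B hB
  have hinv : (1 - (X : R[X]) • B.map C) * G = 1 := by
    have h1 : G = ∑ k ∈ Finset.range (Fintype.card n), ((X : R[X]) • B.map C) ^ k := by
      refine Finset.sum_congr rfl fun k _ => ?_
      rw [_root_.smul_pow]
      congr 1
      have := map_pow (C (R := R)).mapMatrix B k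
      simpa using this
    rw [h1, mul_neg_geom_sum, _root_.smul_pow]
    have h2 : (B.map (C (R := R))) ^ Fintype.card n = 0 := by
      have := map_pow (C (R := R)).mapMatrix B (Fintype.card n)
      rw [hN, map_zero] at this
      simpa using this.symm
    rw [h2, smul_zero, sub_zero]
  have hdet : det (1 - (X : R[X]) • B.map C) = 1 := charpolyRev_eq_one B hB
  have h3 : B'.charpolyRev.eval₂ (mapRingHom (C : R →+* R[X])) (C X) =
      det ((1 - (X : R[X]) • B.map C).map C + (X : (R[X])[X]) • (-((X : R[X]) • z.map C)).map C) := by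
    rw [charpolyRev, ← coe_eval₂RingHom, RingHom.map_det]
    congr 1
    ext i j : 1
    simp only [RingHom.mapMatrix_apply, Matrix.map_apply, Matrix.sub_apply, Matrix.smul_apply,
      smul_eq_mul, map_sub, map_mul, coe_eval₂RingHom, Matrix.add_apply, Matrix.neg_apply,
      map_neg, hB', eval₂_mul, eval₂_X, eval₂_C, coe_mapRingHom, Polynomial.map_add,
      Polynomial.map_mul, Polynomial.map_C, Polynomial.map_X]
    have : ((1 : Matrix n n (R[X])[X]) i j).eval₂ (mapRingHom (C : R →+* R[X])) (C X) =
        C ((1 : Matrix n n R[X]) i j) := by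
      rw [Matrix.one_apply, Matrix.one_apply]
      split_ifs <;> simp
    rw [this]
    ring
  rw [h3, coeff_one_det _ G _ hinv, hdet, one_mul, mul_neg, trace_neg, mul_smul_comm, trace_smul,
    smul_eq_mul, coeff_neg, coeff_X_mul, hG, Finset.sum_mul, trace_sum]
  congr 1
  rw [finsetSum_coeff]
  have h4 : ∀ k, (trace ((X : R[X]) ^ k • (B ^ k).map C * z.map C)).coeff m =
      if k = m then trace (B ^ m * z) else 0 := by
    intro k
    rw [smul_mul_assoc, trace_smul, smul_eq_mul, ← Matrix.map_mul]
    have : trace ((B ^ k * z).map (C (R := R))) = C (trace (B ^ k * z)) := by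
      rw [Matrix.trace, Matrix.trace, map_sum]; rfl
    rw [this, coeff_X_pow_mul']
    by_cases h : k = m
    · subst h; simp
    · rw [if_neg h]
      split_ifs with h'
      · rw [coeff_C, if_neg (by omega)]
      · rfl
  rw [Finset.sum_congr rfl fun k _ => h4 k, Finset.sum_ite_eq' (Finset.range (Fintype.card n))]
  split_ifs with h
  · rfl
  · rw [Finset.mem_range, not_lt] at h
    rw [← Nat.add_sub_cancel' h, pow_add, hN]
    simp

theorem charpolyRev_map {R S : Type*} [CommRing R] [CommRing S] (f : R →+* S)
    (M : Matrix n n R) : (M.map f).charpolyRev = M.charpolyRev.map f := by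
  rw [charpolyRev, charpolyRev, ← coe_mapRingHom, RingHom.map_det]
  congr 1
  ext i j : 1
  simp only [RingHom.mapMatrix_apply, Matrix.map_apply, Matrix.sub_apply, Matrix.smul_apply,
    smul_eq_mul, coe_mapRingHom, Polynomial.map_sub, Polynomial.map_mul, Polynomial.map_C,
    Polynomial.map_X]
  congr 1
  rw [Matrix.one_apply, Matrix.one_apply]
  split_ifs <;> simp

/-- The linearised Cayley-Hamilton theorem. -/
theorem hh_eq_sum {R : Type*} [CommRing R] [Algebra ℚ R] (B z : Matrix n n R)
    (hB : ∀ k, trace (B ^ (k + 1)) = 0) (N : ℕ) (hN : Fintype.card n = N + 1) :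
    hh B N z = ∑ p ∈ antidiagonal N, trace (B ^ p.1 * z) • B ^ p.2 := by
  set B' := B.map C + (X : R[X]) • z.map C with hB'
  have h := congrArg (fun M => M.map (coeff · 1)) (rch B')
  have hsum : ∀ (s : Finset ℕ) (f : ℕ → Matrix n n R[X]),
      (∑ k ∈ s, f k).map (coeff · 1) = ∑ k ∈ s, (f k).map (coeff · 1) := by
    intro s f
    ext i j
    simp only [Matrix.map_apply, Matrix.sum_apply, finsetSum_coeff]
  have hsmul : ∀ (d : R[X]) (M : Matrix n n R[X]), (d • M).map (coeff · 1) =
      d.coeff 1 • M.map (coeff · 0) + d.coeff 0 • M.map (coeff · 1) := by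
    intro d M
    ext i j
    simp only [Matrix.map_apply, Matrix.smul_apply, Matrix.add_apply, smul_eq_mul, mul_coeff_one]
    ring
  have hd0 : B'.charpolyRev.coeff 0 = 1 := by
    rw [coeff_zero_eq_eval_zero, eval_charpolyRev]
  have hdk : ∀ k, (B'.charpolyRev.coeff (k + 1)).coeff 0 = 0 := by
    intro k
    have h1 : B'.map (constantCoeff (R := R)) = B := by
      have := map_coeff_zero_pow B z 1
      rw [pow_one, pow_one] at this
      rw [← this]
      ext i j
      simp [hB', Polynomial.constantCoeff_apply]
    have h2 := charpolyRev_map (constantCoeff (R := R)) B'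
    rw [h1, charpolyRev_eq_one B hB] at h2
    have h3 := congrArg (fun q => coeff q (k + 1)) h2
    simp only [coeff_map, Polynomial.constantCoeff_apply] at h3
    rw [← h3, coeff_one, if_neg (by omega)]
  rw [hsum, hN, Finset.sum_range_succ', hsmul, hd0, coeff_one, if_neg one_ne_zero, zero_smul,
    zero_add, coeff_one_zero, one_smul, Nat.sub_zero, map_coeff_one_pow] at h
  have hz : (0 : Matrix n n R[X]).map (coeff · 1) = 0 := by ext i j; simp
  rw [hz] at h
  have h4 : ∀ k ∈ Finset.range (N + 1),
      (B'.charpolyRev.coeff (k + 1) • B' ^ (N + 1 - (k + 1))).map (coeff · 1) =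
        - (trace (B ^ k * z) • B ^ (N - k)) := by
    intro k hk
    rw [hsmul, hdk, zero_smul, add_zero, coeff_charpolyRev_perturb B z hB, map_coeff_zero_pow,
      neg_smul]
    congr 3
    omega
  rw [Finset.sum_congr rfl h4, Finset.sum_neg_distrib, neg_add_eq_zero] at h
  rw [← h, Finset.Nat.sum_antidiagonal_eq_sum_range_succ_mk]

end

end Pool.Agent.Helper884.LieId
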