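import Mathlib

set_option autoImplicit false

/-!
Degrees of elements of the free Lie algebra, and the minimal degree of a Lie identity of `sl_n`.
-/

namespace Pool.Agent.Helper884.LieId

attribute [local instance 100] LieRing.ofAssociativeRing

universe u

/-- `LieMono K d x`: the element `x` of the free Lie algebra over `K` on the generators
`x_0, x_1, ...` is an iterated bracket of `d` generators (a Lie monomial of degree `d`). -/
inductive LieMono (K : Type u) [Field K] : ℕ → FreeLieAlgebra K ℕ → Prop
  | of (i : ℕ) : LieMono K 1 (FreeLieAlgebra.of K i)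
  | lie {d e : ℕ} {x y : FreeLieAlgebra K ℕ} :
      LieMono K d x → LieMono K e y → LieMono K (d + e) ⁅x, y⁆

/-- The Lie polynomials which are homogeneous of degree `d`: linear combinations of Lie monomials
of degree `d`. -/
noncomputable def Homog (K : Type u) [Field K] (d : ℕ) : Submodule K (FreeLieAlgebra K ℕ) :=
  Submodule.span K {x | LieMono K d x}

/-- The Lie polynomials of degree at most `d`: linear combinations of Lie monomials of degree at
most `d`. -/
noncomputable def DegLE (K : Type u) [Field K] (d : ℕ) : Submodule K (FreeLieAlgebra K ℕ) :=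
  Submodule.span K {x | ∃ e ≤ d, LieMono K e x}

/-- `f` is a Lie identity of the Lie algebra `L`: it is nonzero and vanishes under all
substitutions of elements of `L` for the generators. -/
def IsLieIdentity (K : Type u) [Field K] (L : Type u) [LieRing L] [LieAlgebra K L]
    (f : FreeLieAlgebra K ℕ) : Prop :=
  f ≠ 0 ∧ ∀ a : ℕ → L, FreeLieAlgebra.lift K a f = 0

/-- The least degree `m_n` of a Lie identity of `sl_n(K)`. -/
noncomputable def minDeg (K : Type u) [Field K] (n : ℕ) : ℕ :=
  sInf {d | ∃ f ∈ DegLE K d, IsLieIdentity K (LieAlgebra.SpecialLinear.sl (Fin n) K) f}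

end Pool.Agent.Helper884.LieId
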