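import Mathlib
import Pool.Agent.Helper884.LieId.CH

set_option autoImplicit false

/-!
Trilinear binomial identities in an arbitrary ring.
-/

namespace Pool.Agent.Helper884.LieId

open MvPolynomial
open Finset.HasAntidiagonal (antidiagonal)

section

variable {A : Type*} [Ring A]

/-- `a ^ i b ^ j c ^ l ↦ B ^ i v B ^ j w B ^ l`. -/
noncomputable def Phi (B v w : A) : MvPolynomial (Fin 3) ℤ →ₗ[ℤ] A :=
  (basisMonomials (Fin 3) ℤ).constr ℤ fun m => B ^ m 0 * v * B ^ m 1 * w * B ^ m 2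

theorem Phi_monomial (B v w : A) (m : Fin 3 →₀ ℕ) :
    Phi B v w (monomial m 1) = B ^ m 0 * v * B ^ m 1 * w * B ^ m 2 := by
  have := (basisMonomials (Fin 3) ℤ).constr_basis ℤ
    (fun m => B ^ m 0 * v * B ^ m 1 * w * B ^ m 2) m
  rwa [coe_basisMonomials] at this

theorem Phi_one (B v w : A) : Phi B v w 1 = v * w := by
  rw [← MvPolynomial.C_1, C_apply, Phi_monomial]
  simp

theorem Phi_ext {B v w B' v' w' : A} (p : MvPolynomial (Fin 3) ℤ) (f : A →+ A)
    (q : MvPolynomial (Fin 3) ℤ)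
    (h : ∀ m : Fin 3 →₀ ℕ, Phi B v w (q * monomial m 1) = f (Phi B' v' w' (monomial m 1))) :
    Phi B v w (q * p) = f (Phi B' v' w' p) := by
  have : ∀ p, (Phi B v w).comp (LinearMap.mulLeft ℤ q) p =
      (f.toIntLinearMap.comp (Phi B' v' w')) p := by
    intro p
    congr 1
    refine (basisMonomials (Fin 3) ℤ).ext fun m => ?_
    rw [coe_basisMonomials]
    exact h m
  exact this p

theorem Phi_X0 (B v w : A) (p : MvPolynomial (Fin 3) ℤ) :
    Phi B v w (X 0 * p) = Phi B (B * v) w p := by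
  refine Phi_ext p (AddMonoidHom.id A) (X 0) fun m => ?_
  rw [AddMonoidHom.id_apply, X, monomial_mul, one_mul, Phi_monomial, Phi_monomial]
  simp only [Finsupp.add_apply, Finsupp.single_apply]
  simp [pow_add, mul_assoc, pow_succ']
  rw [← mul_assoc, ← mul_assoc, ((Commute.refl B).pow_right _).eq]
  simp [mul_assoc]

theorem pow_comm_self (B : A) (k : ℕ) (z : A) : B ^ k * (B * z) = B * (B ^ k * z) := by
  rw [← mul_assoc, ← pow_succ, pow_succ', mul_assoc]

theorem Phi_X1_left (B v w : A) (p : MvPolynomial (Fin 3) ℤ) :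
    Phi B v w (X 1 * p) = Phi B (v * B) w p := by
  refine Phi_ext p (AddMonoidHom.id A) (X 1) fun m => ?_
  rw [AddMonoidHom.id_apply, X, monomial_mul, one_mul, Phi_monomial, Phi_monomial]
  simp only [Finsupp.add_apply, Finsupp.single_apply]
  simp [pow_add, mul_assoc, pow_succ']

theorem Phi_X1_right (B v w : A) (p : MvPolynomial (Fin 3) ℤ) :
    Phi B v w (X 1 * p) = Phi B v (B * w) p := by
  refine Phi_ext p (AddMonoidHom.id A) (X 1) fun m => ?_
  rw [AddMonoidHom.id_apply, X, monomial_mul, one_mul, Phi_monomial, Phi_monomial]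
  simp only [Finsupp.add_apply, Finsupp.single_apply]
  simp [pow_add, mul_assoc, pow_comm_self]

theorem Phi_X2 (B v w : A) (p : MvPolynomial (Fin 3) ℤ) :
    Phi B v w (X 2 * p) = Phi B v (w * B) p := by
  refine Phi_ext p (AddMonoidHom.id A) (X 2) fun m => ?_
  rw [AddMonoidHom.id_apply, X, monomial_mul, one_mul, Phi_monomial, Phi_monomial]
  simp only [Finsupp.add_apply, Finsupp.single_apply]
  simp [pow_add, mul_assoc, pow_succ']

/-- `Phi` is additive in the first slot. -/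
noncomputable def PhiL (B w : A) (p : MvPolynomial (Fin 3) ℤ) : A →+ A where
  toFun v := Phi B v w p
  map_zero' := by
    have : Phi B 0 w = 0 := (basisMonomials (Fin 3) ℤ).ext fun m => by
      rw [coe_basisMonomials, Phi_monomial]; simp
    rw [this]; rfl
  map_add' v v' := by
    have : Phi B (v + v') w = Phi B v w + Phi B v' w := (basisMonomials (Fin 3) ℤ).ext fun m => by
      rw [coe_basisMonomials, LinearMap.add_apply, Phi_monomial, Phi_monomial, Phi_monomial]
      noncomm_ring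
    rw [this]; rfl

/-- `Phi` is additive in the second slot. -/
noncomputable def PhiR (B v : A) (p : MvPolynomial (Fin 3) ℤ) : A →+ A where
  toFun w := Phi B v w p
  map_zero' := by
    have : Phi B v 0 = 0 := (basisMonomials (Fin 3) ℤ).ext fun m => by
      rw [coe_basisMonomials, Phi_monomial]; simp
    rw [this]; rfl
  map_add' w w' := by
    have : Phi B v (w + w') = Phi B v w + Phi B v w' := (basisMonomials (Fin 3) ℤ).ext fun m => by
      rw [coe_basisMonomials, LinearMap.add_apply, Phi_monomial, Phi_monomial, Phi_monomial]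
      noncomm_ring
    rw [this]; rfl

theorem Phi_X0_pow (B v w : A) (p : MvPolynomial (Fin 3) ℤ) (k : ℕ) :
    Phi B v w (X 0 ^ k * p) = Phi B (B ^ k * v) w p := by
  induction k generalizing v p with
  | zero => simp
  | succ k ih => rw [pow_succ, mul_assoc, ih, Phi_X0, pow_succ', mul_assoc]

theorem Phi_X1_pow_left (B v w : A) (p : MvPolynomial (Fin 3) ℤ) (k : ℕ) :
    Phi B v w (X 1 ^ k * p) = Phi B (v * B ^ k) w p := by
  induction k generalizing v p with
  | zero => simp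
  | succ k ih => rw [pow_succ, mul_assoc, ih, Phi_X1_left, pow_succ, mul_assoc]

theorem Phi_X1_pow_right (B v w : A) (p : MvPolynomial (Fin 3) ℤ) (k : ℕ) :
    Phi B v w (X 1 ^ k * p) = Phi B v (B ^ k * w) p := by
  induction k generalizing w p with
  | zero => simp
  | succ k ih => rw [pow_succ, mul_assoc, ih, Phi_X1_right, pow_succ', mul_assoc]

theorem Phi_X2_pow (B v w : A) (p : MvPolynomial (Fin 3) ℤ) (k : ℕ) :
    Phi B v w (X 2 ^ k * p) = Phi B v (w * B ^ k) p := by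
  induction k generalizing w p with
  | zero => simp
  | succ k ih => rw [pow_succ, mul_assoc, ih, Phi_X2, pow_succ, mul_assoc]

/-- Complete homogeneous polynomial in two variables. -/
noncomputable def hP {R : Type*} [CommRing R] (a b : R) (m : ℕ) : R :=
  ∑ p ∈ antidiagonal m, a ^ p.1 * b ^ p.2

theorem sub_mul_hP {R : Type*} [CommRing R] (a b : R) (m : ℕ) :
    (a - b) * hP a b m = a ^ (m + 1) - b ^ (m + 1) := by
  induction m with
  | zero => simp [hP]
  | succ m ih =>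
    have : hP a b (m + 1) = hP a b m * b + a ^ (m + 1) := by
      rw [hP, Finset.Nat.sum_antidiagonal_succ', hP, Finset.sum_mul, add_comm]
      simp [pow_succ, mul_assoc]
    rw [this, mul_add, ← mul_assoc, ih]
    ring

theorem Phi_hP_left (B v w : A) (p : MvPolynomial (Fin 3) ℤ) (m : ℕ) :
    Phi B v w (hP (X 0) (X 1) m * p) = Phi B (hh B m v) w p := by
  have : Phi B (hh B m v) w p = PhiL B w p (hh B m v) := rfl
  rw [this, hh, map_sum, hP, Finset.sum_mul, map_sum]
  refine Finset.sum_congr rfl fun q _ => ?_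
  rw [mul_assoc, Phi_X0_pow, Phi_X1_pow_left]
  rfl

theorem Phi_hP_right (B v w : A) (p : MvPolynomial (Fin 3) ℤ) (m : ℕ) :
    Phi B v w (hP (X 1) (X 2) m * p) = Phi B v (hh B m w) p := by
  have : Phi B v (hh B m w) p = PhiR B v p (hh B m w) := rfl
  rw [this, hh, map_sum, hP, Finset.sum_mul, map_sum]
  refine Finset.sum_congr rfl fun q _ => ?_
  rw [mul_assoc, Phi_X1_pow_right, Phi_X2_pow]
  rfl

/-- Iterated commutator with `B`. -/
def adp (B : A) : ℕ → A → A
  | 0, z => z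
  | (k + 1), z => B * adp B k z - adp B k z * B

theorem adp_comm (B : A) (k : ℕ) (z : A) : adp B k (B * z - z * B) = adp B (k + 1) z := by
  induction k with
  | zero => rfl
  | succ k ih =>
    rw [adp, ih]
    rfl

theorem Phi_sub_left (B v w : A) (p : MvPolynomial (Fin 3) ℤ) (k : ℕ) :
    Phi B v w ((X 0 - X 1) ^ k * p) = Phi B (adp B k v) w p := by
  induction k generalizing v p with
  | zero => simp [adp]
  | succ k ih =>
    have h : ∀ v' p, Phi B v' w ((X 0 - X 1) * p) = Phi B (B * v' - v' * B) w p := by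
      intro v' p
      rw [sub_mul, map_sub, Phi_X0, Phi_X1_left]
      exact (map_sub (PhiL B w p) _ _).symm
    rw [pow_succ, mul_assoc, ih, h]
    rfl

theorem Phi_sub_right (B v w : A) (p : MvPolynomial (Fin 3) ℤ) (k : ℕ) :
    Phi B v w ((X 1 - X 2) ^ k * p) = Phi B v (adp B k w) p := by
  induction k generalizing w p with
  | zero => simp [adp]
  | succ k ih =>
    have h : ∀ w' p, Phi B v w' ((X 1 - X 2) * p) = Phi B v (B * w' - w' * B) p := by
      intro w' p
      rw [sub_mul, map_sub, Phi_X1_right, Phi_X2]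
      exact (map_sub (PhiR B v p) _ _).symm
    rw [pow_succ, mul_assoc, ih, h]
    rfl

/-! ### Polynomial identities -/

theorem sub_pow_ad {R : Type*} [CommRing R] (a b : R) (m : ℕ) :
    (a - b) ^ m = ∑ p ∈ antidiagonal m, (m.choose p.2 : R) * ((-1) ^ p.2 * a ^ p.1 * b ^ p.2) := by
  rw [sub_eq_add_neg, (Commute.all a (-b)).add_pow']
  refine Finset.sum_congr rfl fun p hp => ?_
  rw [Finset.HasAntidiagonal.mem_antidiagonal] at hp
  rw [nsmul_eq_mul, Nat.choose_symm_of_eq_add hp.symm, neg_pow]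
  ring

theorem omega_poly {R : Type*} [CommRing R] [IsDomain R] (a b c : R) (hbc : b ≠ c) (m : ℕ) :
    ∑ p ∈ antidiagonal m, ((m + 1).choose (p.2 + 1) : R) * ((a - b) ^ p.1 * (b - c) ^ p.2) =
    ∑ p ∈ antidiagonal m, ((m + 1).choose (p.2 + 1) : R) * ((-1) ^ p.2 * (a ^ p.1 * hP b c p.2)) := by
  have h1 : ∑ p ∈ antidiagonal (m + 1), ((m + 1).choose p.2 : R) *
      ((a - b) ^ p.1 * (b - c) ^ p.2) = (a - c) ^ (m + 1) := by
    have : a - c = (a - b) + (b - c) := by ring
    rw [this, (Commute.all (a - b) (b - c)).add_pow']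
    refine Finset.sum_congr rfl fun p hp => ?_
    rw [Finset.HasAntidiagonal.mem_antidiagonal] at hp
    rw [nsmul_eq_mul, Nat.choose_symm_of_eq_add hp.symm]
  rw [Finset.Nat.sum_antidiagonal_succ'] at h1
  have h2 := sub_pow_ad a b (m + 1)
  have h3 := sub_pow_ad a c (m + 1)
  rw [Finset.Nat.sum_antidiagonal_succ'] at h2 h3
  simp only [Nat.choose_zero_right, Nat.cast_one, pow_zero, mul_one, one_mul] at h1 h2 h3
  apply mul_left_cancel₀ (sub_ne_zero.2 hbc)
  have h4 : ∀ p : ℕ × ℕ, (b - c) * (((m + 1).choose (p.2 + 1) : R) *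
      ((-1) ^ p.2 * (a ^ p.1 * hP b c p.2))) =
      ((m + 1).choose (p.2 + 1) : R) * ((-1) ^ (p.2 + 1) * a ^ p.1 * c ^ (p.2 + 1)) -
      ((m + 1).choose (p.2 + 1) : R) * ((-1) ^ (p.2 + 1) * a ^ p.1 * b ^ (p.2 + 1)) := by
    intro p
    have := sub_mul_hP b c p.2
    calc _ = ((m + 1).choose (p.2 + 1) : R) * ((-1) ^ p.2 * (a ^ p.1 * ((b - c) * hP b c p.2))) := by
          ring
      _ = _ := by rw [this]; ring
  have h5 : ∀ p : ℕ × ℕ, (b - c) * (((m + 1).choose (p.2 + 1) : R) *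
      ((a - b) ^ p.1 * (b - c) ^ p.2)) =
      ((m + 1).choose (p.2 + 1) : R) * ((a - b) ^ p.1 * (b - c) ^ (p.2 + 1)) := by
    intro p; ring
  rw [Finset.mul_sum, Finset.mul_sum, Finset.sum_congr rfl fun p _ => h4 p,
    Finset.sum_congr rfl fun p _ => h5 p, Finset.sum_sub_distrib]
  linear_combination h1 - h2 + h3

theorem omega_star_poly {R : Type*} [CommRing R] [IsDomain R] (a b c : R) (hab : a ≠ b) (m : ℕ) :
    ∑ p ∈ antidiagonal m, ((m + 1).choose (p.1 + 1) : R) * ((a - b) ^ p.1 * (b - c) ^ p.2) =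
    ∑ p ∈ antidiagonal m, ((m + 1).choose p.2 : R) * ((-1) ^ p.2 * (hP a b p.1 * c ^ p.2)) := by
  have h1 : ∑ p ∈ antidiagonal (m + 1), ((m + 1).choose p.1 : R) *
      ((a - b) ^ p.1 * (b - c) ^ p.2) = (a - c) ^ (m + 1) := by
    have : a - c = (a - b) + (b - c) := by ring
    rw [this, (Commute.all (a - b) (b - c)).add_pow']
    refine Finset.sum_congr rfl fun p hp => ?_
    rw [nsmul_eq_mul]
  rw [Finset.Nat.sum_antidiagonal_succ] at h1
  have h2 := sub_pow_ad b c (m + 1)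
  have h3 := sub_pow_ad a c (m + 1)
  rw [Finset.Nat.sum_antidiagonal_succ] at h2 h3
  simp only [Nat.choose_zero_right, Nat.cast_one, pow_zero, mul_one, one_mul] at h1 h2 h3
  apply mul_left_cancel₀ (sub_ne_zero.2 hab)
  have h4 : ∀ p : ℕ × ℕ, (a - b) * (((m + 1).choose p.2 : R) *
      ((-1) ^ p.2 * (hP a b p.1 * c ^ p.2))) =
      ((m + 1).choose p.2 : R) * ((-1) ^ p.2 * a ^ (p.1 + 1) * c ^ p.2) -
      ((m + 1).choose p.2 : R) * ((-1) ^ p.2 * b ^ (p.1 + 1) * c ^ p.2) := by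
    intro p
    have := sub_mul_hP a b p.1
    calc _ = ((m + 1).choose p.2 : R) * ((-1) ^ p.2 * (((a - b) * hP a b p.1) * c ^ p.2)) := by
          ring
      _ = _ := by rw [this]; ring
  have h5 : ∀ p : ℕ × ℕ, (a - b) * (((m + 1).choose (p.1 + 1) : R) *
      ((a - b) ^ p.1 * (b - c) ^ p.2)) =
      ((m + 1).choose (p.1 + 1) : R) * ((a - b) ^ (p.1 + 1) * (b - c) ^ p.2) := by
    intro p; ring
  rw [Finset.mul_sum, Finset.mul_sum, Finset.sum_congr rfl fun p _ => h4 p,
    Finset.sum_congr rfl fun p _ => h5 p, Finset.sum_sub_distrib]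
  linear_combination h1 - h2 + h3

theorem omega_one_poly {R : Type*} [CommRing R] [IsDomain R] (a b c : R) (hab : a ≠ b)
    (hbc : b ≠ c) (m : ℕ) :
    ∑ p ∈ antidiagonal m, ((m + 2).choose (p.1 + 1) : R) * ((a - b) ^ p.1 * (b - c) ^ p.2) =
    ∑ p ∈ antidiagonal m, ((m + 2).choose (p.2 + 1) : R) *
      ((-1) ^ p.2 * (hP a b p.1 * hP b c p.2)) := by
  have h1 : ∑ p ∈ antidiagonal (m + 2), ((m + 2).choose p.1 : R) *
      ((a - b) ^ p.1 * (b - c) ^ p.2) = (a - c) ^ (m + 2) := by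
    have : a - c = (a - b) + (b - c) := by ring
    rw [this, (Commute.all (a - b) (b - c)).add_pow']
    refine Finset.sum_congr rfl fun p hp => ?_
    rw [nsmul_eq_mul]
  rw [Finset.Nat.sum_antidiagonal_succ, Finset.Nat.sum_antidiagonal_succ'] at h1
  have h2 := sub_pow_ad b c (m + 2)
  have h3 := sub_pow_ad a c (m + 2)
  have h6 := sub_pow_ad a b (m + 2)
  have h7 := sub_pow_ad (1 : R) 1 (m + 2)
  rw [Finset.Nat.sum_antidiagonal_succ, Finset.Nat.sum_antidiagonal_succ'] at h2 h3 h6 h7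
  simp only [Nat.choose_zero_right, Nat.cast_one, pow_zero, mul_one, one_mul,
    Nat.choose_self, one_pow, sub_self, zero_pow (Nat.succ_ne_zero (m + 1))] at h1 h2 h3 h6 h7
  apply mul_left_cancel₀ (mul_ne_zero (sub_ne_zero.2 hab) (sub_ne_zero.2 hbc))
  have h4 : ∀ p : ℕ × ℕ, (a - b) * (b - c) * (((m + 2).choose (p.2 + 1) : R) *
      ((-1) ^ p.2 * (hP a b p.1 * hP b c p.2))) =
      ((m + 2).choose (p.2 + 1) : R) * ((-1) ^ (p.2 + 1) * a ^ (p.1 + 1) * c ^ (p.2 + 1)) -
      ((m + 2).choose (p.2 + 1) : R) * ((-1) ^ (p.2 + 1) * b ^ (p.1 + 1) * c ^ (p.2 + 1)) -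
      ((m + 2).choose (p.2 + 1) : R) * ((-1) ^ (p.2 + 1) * a ^ (p.1 + 1) * b ^ (p.2 + 1)) +
      ((m + 2).choose (p.2 + 1) : R) * ((-1) ^ (p.2 + 1) * b ^ (p.1 + 1) * b ^ (p.2 + 1)) := by
    intro p
    have e1 := sub_mul_hP a b p.1
    have e2 := sub_mul_hP b c p.2
    calc _ = ((m + 2).choose (p.2 + 1) : R) * ((-1) ^ p.2 * (((a - b) * hP a b p.1) *
            ((b - c) * hP b c p.2))) := by
          ring
      _ = _ := by rw [e1, e2]; ring
  have h5 : ∀ p : ℕ × ℕ, (a - b) * (b - c) * (((m + 2).choose (p.1 + 1) : R) *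
      ((a - b) ^ p.1 * (b - c) ^ p.2)) =
      ((m + 2).choose (p.1 + 1) : R) * ((a - b) ^ (p.1 + 1) * (b - c) ^ (p.2 + 1)) := by
    intro p; ring
  have h8 : ∑ p ∈ antidiagonal m,
      ((m + 2).choose (p.2 + 1) : R) * ((-1) ^ (p.2 + 1) * b ^ (p.1 + 1) * b ^ (p.2 + 1)) =
      (∑ p ∈ antidiagonal m, ((m + 2).choose (p.2 + 1) : R) * (-1) ^ (p.2 + 1)) * b ^ (m + 2) := by
    rw [Finset.sum_mul]
    refine Finset.sum_congr rfl fun p hp => ?_
    rw [Finset.HasAntidiagonal.mem_antidiagonal] at hp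
    rw [← hp]
    ring
  rw [Finset.mul_sum, Finset.mul_sum, Finset.sum_congr rfl fun p _ => h4 p,
    Finset.sum_congr rfl fun p _ => h5 p, Finset.sum_add_distrib, Finset.sum_sub_distrib,
    Finset.sum_sub_distrib, h8]
  linear_combination h1 - h2 + h3 - h6 + b ^ (m + 2) * h7

/-! ### The identities in a ring -/

theorem X_ne {i j : Fin 3} (h : i ≠ j) : (X i : MvPolynomial (Fin 3) ℤ) ≠ X j := fun h' =>
  h (X_injective h')

theorem Phi_natCast_mul (B v w : A) (c : ℕ) (p : MvPolynomial (Fin 3) ℤ) :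
    Phi B v w ((c : MvPolynomial (Fin 3) ℤ) * p) = c • Phi B v w p := by
  rw [← nsmul_eq_mul, map_nsmul]

theorem Phi_neg_one_pow_mul (B v w : A) (k : ℕ) (p : MvPolynomial (Fin 3) ℤ) :
    Phi B v w ((-1) ^ k * p) = (-1) ^ k * Phi B v w p := by
  induction k generalizing p with
  | zero => simp
  | succ k ih => rw [pow_succ, mul_assoc, ih, pow_succ, neg_one_mul, map_neg]; noncomm_ring

theorem Phi_sub_sub (B v w : A) (k l : ℕ) :
    Phi B v w ((X 0 - X 1) ^ k * (X 1 - X 2) ^ l) = adp B k v * adp B l w := by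
  rw [Phi_sub_left, ← mul_one ((X 1 - X 2) ^ l), Phi_sub_right, Phi_one]

theorem omega (B v w : A) (m : ℕ) :
    ∑ p ∈ antidiagonal m, (m + 1).choose (p.2 + 1) • (adp B p.1 v * adp B p.2 w) =
    ∑ p ∈ antidiagonal m, (m + 1).choose (p.2 + 1) •
      ((-1) ^ p.2 * (B ^ p.1 * v * hh B p.2 w)) := by
  have h := congrArg (Phi B v w) (omega_poly (X 0 : MvPolynomial (Fin 3) ℤ) (X 1) (X 2)
    (X_ne (by decide)) m)
  rw [map_sum, map_sum] at h
  rw [Finset.sum_congr rfl fun p _ => by rw [← Phi_sub_sub, ← Phi_natCast_mul], h]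
  refine Finset.sum_congr rfl fun p _ => ?_
  rw [Phi_natCast_mul, Phi_neg_one_pow_mul, Phi_X0_pow, ← mul_one (hP _ _ _), Phi_hP_right,
    Phi_one]

theorem omega_star (B v w : A) (m : ℕ) :
    ∑ p ∈ antidiagonal m, (m + 1).choose (p.1 + 1) • (adp B p.1 v * adp B p.2 w) =
    ∑ p ∈ antidiagonal m, (m + 1).choose p.2 •
      ((-1) ^ p.2 * (hh B p.1 v * w * B ^ p.2)) := by
  have h := congrArg (Phi B v w) (omega_star_poly (X 0 : MvPolynomial (Fin 3) ℤ) (X 1) (X 2)
    (X_ne (by decide)) m)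
  rw [map_sum, map_sum] at h
  rw [Finset.sum_congr rfl fun p _ => by rw [← Phi_sub_sub, ← Phi_natCast_mul], h]
  refine Finset.sum_congr rfl fun p _ => ?_
  rw [Phi_natCast_mul, Phi_neg_one_pow_mul, Phi_hP_left, ← mul_one (X 2 ^ _), Phi_X2_pow,
    Phi_one, mul_assoc]

theorem omega_one (B v w : A) (m : ℕ) :
    ∑ p ∈ antidiagonal m, (m + 2).choose (p.1 + 1) • (adp B p.1 v * adp B p.2 w) =
    ∑ p ∈ antidiagonal m, (m + 2).choose (p.2 + 1) •
      ((-1) ^ p.2 * (hh B p.1 v * hh B p.2 w)) := by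
  have h := congrArg (Phi B v w) (omega_one_poly (X 0 : MvPolynomial (Fin 3) ℤ) (X 1) (X 2)
    (X_ne (by decide)) (X_ne (by decide)) m)
  rw [map_sum, map_sum] at h
  rw [Finset.sum_congr rfl fun p _ => by rw [← Phi_sub_sub, ← Phi_natCast_mul], h]
  refine Finset.sum_congr rfl fun p _ => ?_
  rw [Phi_natCast_mul, Phi_neg_one_pow_mul, Phi_hP_left, ← mul_one (hP _ _ _), Phi_hP_right,
    Phi_one]

end

end Pool.Agent.Helper884.LieId
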