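import Mathlib
import Pool.Agent.Helper884.LieId.CH

set_option autoImplicit false

/-!
Matrices over a supercommutative algebra.
-/

namespace Pool.Agent.Helper884.LieId

open Matrix
open Finset.HasAntidiagonal (antidiagonal)

section

variable {Λ : Type*} [Ring Λ]

/-- Even elements: central and fixed by `σ`. -/
def Ev (σ : Λ →+* Λ) (c : Λ) : Prop := (∀ w, c * w = w * c) ∧ σ c = c

/-- Odd elements: supercommuting with everything, negated by `σ`. -/
def Od (σ : Λ →+* Λ) (t : Λ) : Prop := (∀ w, t * w = σ w * t) ∧ σ t = -t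

variable {σ : Λ →+* Λ}

theorem Ev.zero : Ev σ 0 := ⟨fun w => by simp, by simp⟩
theorem Ev.one : Ev σ 1 := ⟨fun w => by simp, by simp⟩
theorem Ev.add {a b : Λ} (ha : Ev σ a) (hb : Ev σ b) : Ev σ (a + b) :=
  ⟨fun w => by rw [add_mul, mul_add, ha.1, hb.1], by rw [map_add, ha.2, hb.2]⟩
theorem Ev.mul {a b : Λ} (ha : Ev σ a) (hb : Ev σ b) : Ev σ (a * b) :=
  ⟨fun w => by rw [mul_assoc, hb.1, ← mul_assoc, ha.1, mul_assoc], by rw [map_mul, ha.2, hb.2]⟩
theorem Ev.neg {a : Λ} (ha : Ev σ a) : Ev σ (-a) :=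
  ⟨fun w => by rw [neg_mul, mul_neg, ha.1], by rw [map_neg, ha.2]⟩
theorem Ev.sum {ι : Type*} (s : Finset ι) {f : ι → Λ} (h : ∀ i ∈ s, Ev σ (f i)) :
    Ev σ (∑ i ∈ s, f i) := Finset.sum_induction _ (Ev σ) (fun _ _ => Ev.add) Ev.zero h
theorem Od.zero : Od σ 0 := ⟨fun w => by simp, by simp⟩
theorem Od.add {a b : Λ} (ha : Od σ a) (hb : Od σ b) : Od σ (a + b) :=
  ⟨fun w => by rw [add_mul, mul_add, ha.1, hb.1], by rw [map_add, ha.2, hb.2, neg_add]⟩
theorem Od.neg {a : Λ} (ha : Od σ a) : Od σ (-a) :=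
  ⟨fun w => by rw [neg_mul, mul_neg, ha.1], by rw [map_neg, ha.2]⟩
theorem Od.sum {ι : Type*} (s : Finset ι) {f : ι → Λ} (h : ∀ i ∈ s, Od σ (f i)) :
    Od σ (∑ i ∈ s, f i) := Finset.sum_induction _ (Od σ) (fun _ _ => Od.add) Od.zero h
theorem Od.mul_ev {a b : Λ} (ha : Od σ a) (hb : Ev σ b) : Od σ (a * b) :=
  ⟨fun w => by rw [mul_assoc, hb.1, ← mul_assoc, ha.1, mul_assoc],
    by rw [map_mul, ha.2, hb.2, neg_mul]⟩
theorem Ev.mul_od {a b : Λ} (ha : Ev σ a) (hb : Od σ b) : Od σ (a * b) :=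
  ⟨fun w => by rw [mul_assoc, hb.1, ← mul_assoc, ha.1, mul_assoc],
    by rw [map_mul, ha.2, hb.2, mul_neg]⟩
theorem Od.mul (hσ : ∀ w, σ (σ w) = w) {a b : Λ} (ha : Od σ a) (hb : Od σ b) : Ev σ (a * b) :=
  ⟨fun w => by rw [mul_assoc, hb.1, ← mul_assoc, ha.1, hσ, mul_assoc],
    by rw [map_mul, ha.2, hb.2, neg_mul_neg]⟩

variable {n : Type*} [Fintype n] [DecidableEq n]

/-- Matrices with even entries. -/
def EvM (σ : Λ →+* Λ) (M : Matrix n n Λ) : Prop := ∀ i j, Ev σ (M i j)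

/-- Matrices with odd entries. -/
def OdM (σ : Λ →+* Λ) (M : Matrix n n Λ) : Prop := ∀ i j, Od σ (M i j)

omit [Fintype n] in
theorem EvM.one : EvM σ (1 : Matrix n n Λ) := fun i j => by
  rw [Matrix.one_apply]; split_ifs; exacts [Ev.one, Ev.zero]
omit [DecidableEq n] in
theorem EvM.mul {M M' : Matrix n n Λ} (h : EvM σ M) (h' : EvM σ M') : EvM σ (M * M') :=
  fun _ _ => Ev.sum _ fun _ _ => (h _ _).mul (h' _ _)
omit [DecidableEq n] in
theorem EvM.mul_od {M M' : Matrix n n Λ} (h : EvM σ M) (h' : OdM σ M') : OdM σ (M * M') :=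
  fun _ _ => Od.sum _ fun _ _ => (h _ _).mul_od (h' _ _)
omit [DecidableEq n] in
theorem OdM.mul_ev {M M' : Matrix n n Λ} (h : OdM σ M) (h' : EvM σ M') : OdM σ (M * M') :=
  fun _ _ => Od.sum _ fun _ _ => (h _ _).mul_ev (h' _ _)
omit [DecidableEq n] in
theorem OdM.mul (hσ : ∀ w, σ (σ w) = w) {M M' : Matrix n n Λ} (h : OdM σ M) (h' : OdM σ M') :
    EvM σ (M * M') :=
  fun _ _ => Ev.sum _ fun _ _ => (h _ _).mul hσ (h' _ _)
theorem EvM.pow {M : Matrix n n Λ} (h : EvM σ M) (k : ℕ) : EvM σ (M ^ k) := by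
  induction k with
  | zero => rw [pow_zero]; exact EvM.one
  | succ k ih => rw [pow_succ]; exact ih.mul h
omit [Fintype n] [DecidableEq n] in
theorem OdM.sub {M M' : Matrix n n Λ} (h : OdM σ M) (h' : OdM σ M') : OdM σ (M - M') :=
  fun i j => by rw [Matrix.sub_apply, sub_eq_add_neg]; exact (h i j).add (h' i j).neg
omit [Fintype n] [DecidableEq n] in
theorem OdM.add {M M' : Matrix n n Λ} (h : OdM σ M) (h' : OdM σ M') : OdM σ (M + M') :=
  fun i j => by rw [Matrix.add_apply]; exact (h i j).add (h' i j)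

omit [DecidableEq n] in
/-- Cyclicity of the trace for an even factor. -/
theorem EvM.trace_comm {M : Matrix n n Λ} (h : EvM σ M) (M' : Matrix n n Λ) :
    trace (M * M') = trace (M' * M) := by
  simp only [Matrix.trace, Matrix.diag_apply, Matrix.mul_apply]
  rw [Finset.sum_comm]
  exact Finset.sum_congr rfl fun _ _ => Finset.sum_congr rfl fun _ _ => (h _ _).1 _

omit [DecidableEq n] in
/-- Anticyclicity of the trace for odd factors. -/
theorem OdM.trace_comm {M M' : Matrix n n Λ} (h : OdM σ M) (h' : OdM σ M') :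
    trace (M * M') = - trace (M' * M) := by
  simp only [Matrix.trace, Matrix.diag_apply, Matrix.mul_apply]
  rw [Finset.sum_comm, ← Finset.sum_neg_distrib]
  refine Finset.sum_congr rfl fun _ _ => ?_
  rw [← Finset.sum_neg_distrib]
  refine Finset.sum_congr rfl fun _ _ => ?_
  rw [(h _ _).1, (h' _ _).2, neg_mul]

theorem hh_map {A A' : Type*} [Ring A] [Ring A'] (f : A →+* A') (B z : A) (m : ℕ) :
    f (hh B m z) = hh (f B) m (f z) := by
  simp [hh, map_sum, map_mul, map_pow]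

/-- The linearised Cayley-Hamilton theorem for even matrices. -/
theorem hh_eq_sum_ev (K : Type*) [Field K] [CharZero K] [Algebra K Λ] {B z : Matrix n n Λ}
    (hBe : EvM σ B) (hz : EvM σ z)
    (hB : ∀ k, trace (B ^ (k + 1)) = 0) (N : ℕ) (hN : Fintype.card n = N + 1) :
    hh B N z = ∑ p ∈ antidiagonal N, trace (B ^ p.1 * z) • B ^ p.2 := by
  let Z := Subalgebra.center K Λ
  let : Algebra ℚ Z := Algebra.compHom Z (algebraMap ℚ K)
  have hmem : ∀ {M : Matrix n n Λ}, EvM σ M → ∀ i j, M i j ∈ Z := fun h i j =>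
    Subalgebra.mem_center_iff.2 fun w => ((h i j).1 w).symm
  let B' : Matrix n n Z := fun i j => ⟨B i j, hmem hBe i j⟩
  let z' : Matrix n n Z := fun i j => ⟨z i j, hmem hz i j⟩
  let f : Matrix n n Z →+* Matrix n n Λ := (Z.val : Z →+* Λ).mapMatrix
  have hfB : f B' = B := by ext i j; rfl
  have hfz : f z' = z := by ext i j; rfl
  have htr : ∀ M : Matrix n n Z, ((trace M : Z) : Λ) = trace (f M) := by
    intro M
    simp [Matrix.trace, f]
  have hB' : ∀ k, trace (B' ^ (k + 1)) = 0 := by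
    intro k
    apply Subtype.ext
    rw [htr, map_pow, hfB, hB k]
    rfl
  have h := (hh_map f B' z' N).symm.trans (congrArg f (hh_eq_sum B' z' hB' N hN))
  rw [hfB, hfz, map_sum] at h
  rw [h]
  refine Finset.sum_congr rfl fun p _ => ?_
  have h1 : ∀ (c : Z) (M : Matrix n n Z), f (c • M) = (c : Λ) • f M := by
    intro c M; ext i j; simp [f]
  rw [h1, map_pow, hfB, htr, map_mul, map_pow, hfB, hfz]

theorem pow_eq_zero_ev (K : Type*) [Field K] [CharZero K] [Algebra K Λ] {B : Matrix n n Λ}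
    (hBe : EvM σ B) (hB : ∀ k, trace (B ^ (k + 1)) = 0) : B ^ Fintype.card n = 0 := by
  let Z := Subalgebra.center K Λ
  let : Algebra ℚ Z := Algebra.compHom Z (algebraMap ℚ K)
  have hmem : ∀ {M : Matrix n n Λ}, EvM σ M → ∀ i j, M i j ∈ Z := fun h i j =>
    Subalgebra.mem_center_iff.2 fun w => ((h i j).1 w).symm
  let B' : Matrix n n Z := fun i j => ⟨B i j, hmem hBe i j⟩
  let f : Matrix n n Z →+* Matrix n n Λ := (Z.val : Z →+* Λ).mapMatrix
  have hfB : f B' = B := by ext i j; rfl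
  have htr : ∀ M : Matrix n n Z, ((trace M : Z) : Λ) = trace (f M) := by
    intro M
    simp [Matrix.trace, f]
  have hB' : ∀ k, trace (B' ^ (k + 1)) = 0 := by
    intro k
    apply Subtype.ext
    rw [htr, map_pow, hfB, hB k]
    rfl
  have h := congrArg f (pow_card_eq_zero B' hB')
  rwa [map_pow, hfB, map_zero] at h

/-! ### The square of an odd matrix -/

variable (K : Type*) [Field K] [CharZero K] [Algebra K Λ] (hσ : ∀ w, σ (σ w) = w)
  {X : Matrix n n Λ} (hX : OdM σ X) (N : ℕ) (hN : Fintype.card n = N + 1)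

include K in
theorem eq_zero_of_eq_neg {V : Type*} [AddCommGroup V] [Module K V] {v : V} (h : v = -v) :
    v = 0 := by
  have h2 : (2 : K) • v = 0 := by
    rw [two_smul]
    nth_rewrite 2 [h]
    exact add_neg_cancel v
  exact (smul_eq_zero.1 h2).resolve_left two_ne_zero

include K hσ hX in
theorem trace_sq_pow (k : ℕ) : trace ((X * X) ^ (k + 1)) = 0 := by
  have h1 : EvM σ ((X * X) ^ k) := (hX.mul hσ hX).pow k
  have h2 : (X * X) ^ (k + 1) = (X * X) ^ k * X * X := by rw [pow_succ, mul_assoc]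
  have h3 : (X * X) ^ (k + 1) = X * ((X * X) ^ k * X) := by
    rw [pow_succ, ← mul_assoc, ← mul_assoc]
    congr 1
    exact (((Commute.refl X).mul_left (Commute.refl X)).pow_left k)
  apply eq_zero_of_eq_neg K
  nth_rewrite 1 [h2]
  rw [(h1.mul_od hX).trace_comm hX, ← h3]

omit [Fintype n] [DecidableEq n] in
theorem Ev_smul_comm {c : Λ} (hc : Ev σ c) [Fintype n] (M M' : Matrix n n Λ) :
    M * (c • M') = c • (M * M') := by
  ext i j
  simp only [Matrix.mul_apply, Matrix.smul_apply, smul_eq_mul, Finset.mul_sum]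
  refine Finset.sum_congr rfl fun k _ => ?_
  rw [← mul_assoc, ← hc.1, mul_assoc]

theorem Ev_trace {M : Matrix n n Λ} (h : EvM σ M) : Ev σ (trace M) :=
  Ev.sum _ fun i _ => h i i

theorem X_comm_pow (X : Matrix n n Λ) (k : ℕ) : X * (X * X) ^ k = (X * X) ^ k * X :=
  ((Commute.refl X).mul_right (Commute.refl X)).pow_right k

theorem hh_mul_left {A : Type*} [Ring A] {B X : A} (h : Commute X B) (m : ℕ) (z : A) :
    X * hh B m z = hh B m (X * z) := by
  rw [hh, hh, Finset.mul_sum]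
  refine Finset.sum_congr rfl fun p _ => ?_
  rw [← mul_assoc, ← mul_assoc, ← mul_assoc, (h.pow_right p.1).eq]

theorem hh_mul_right {A : Type*} [Ring A] {B X : A} (h : Commute X B) (m : ℕ) (z : A) :
    hh B m z * X = hh B m (z * X) := by
  rw [hh, hh, Finset.sum_mul]
  refine Finset.sum_congr rfl fun p _ => ?_
  rw [mul_assoc, ← (h.pow_right p.2).eq, ← mul_assoc, ← mul_assoc]

theorem hh_sub {A : Type*} [Ring A] (B : A) (m : ℕ) (z z' : A) :
    hh B m (z - z') = hh B m z - hh B m z' := by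
  simp only [hh, ← Finset.sum_sub_distrib]
  refine Finset.sum_congr rfl fun p _ => ?_
  noncomm_ring

variable {y : Matrix n n Λ} (hy : EvM σ y)

include K hσ hX hN in
theorem sq_pow_eq_zero : (X * X) ^ (N + 1) = 0 := by
  have := pow_eq_zero_ev K (hX.mul hσ hX) (trace_sq_pow K hσ hX)
  rwa [hN] at this

include K hσ hX hN hy in
theorem X_comm_E : X * hh (X * X) N y = hh (X * X) N y * X := by
  have hBe := hX.mul hσ hX
  rw [hh_eq_sum_ev K hBe hy (trace_sq_pow K hσ hX) N hN, Finset.mul_sum, Finset.sum_mul]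
  refine Finset.sum_congr rfl fun p _ => ?_
  rw [Ev_smul_comm (Ev_trace ((hBe.pow _).mul hy)), X_comm_pow, smul_mul_assoc]

include K hσ hX hN hy in
theorem XEX : X * hh (X * X) N y * X = 0 := by
  have hBe := hX.mul hσ hX
  have hE := hh_eq_sum_ev K hBe hy (trace_sq_pow K hσ hX) N hN
  have hXyX : EvM σ (X * y * X) := (hX.mul_ev hy).mul hσ hX
  have hE' := hh_eq_sum_ev K hBe hXyX (trace_sq_pow K hσ hX) N hN
  have hc : Commute X (X * X) := (Commute.refl X).mul_right (Commute.refl X)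
  have h0 := sq_pow_eq_zero K hσ hX N hN
  let F : ℕ × ℕ → Matrix n n Λ := fun p => trace ((X * X) ^ p.1 * y) • (X * X) ^ p.2
  -- first expression
  have h1 : X * hh (X * X) N y * X = ∑ p ∈ antidiagonal (N + 1), F p := by
    rw [Finset.Nat.sum_antidiagonal_succ', hE, Finset.mul_sum, Finset.sum_mul]
    have : F (N + 1, 0) = 0 := by simp [F, h0]
    rw [this, zero_add]
    refine Finset.sum_congr rfl fun p _ => ?_
    rw [Ev_smul_comm (Ev_trace ((hBe.pow _).mul hy)), smul_mul_assoc, X_comm_pow, mul_assoc,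
      ← pow_succ]
  have h2 : X * hh (X * X) N y * X = - ∑ p ∈ antidiagonal (N + 1), F p := by
    rw [hh_mul_left hc, hh_mul_right hc, hE', Finset.Nat.sum_antidiagonal_succ]
    have : F (0, N + 1) = 0 := by simp [F, h0]
    rw [this, zero_add, ← Finset.sum_neg_distrib]
    refine Finset.sum_congr rfl fun p _ => ?_
    have h3 : (X * X) ^ p.1 * (X * y * X) = (X * X) ^ p.1 * (X * y) * X := by
      rw [mul_assoc ((X * X) ^ p.1)]
    rw [h3, ((hBe.pow _).mul_od (hX.mul_ev hy)).trace_comm hX, ← mul_assoc, ← mul_assoc,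
      X_comm_pow, mul_assoc ((X * X) ^ p.1) X X, ← pow_succ, neg_smul]
  rw [h1] at h2 ⊢
  exact eq_zero_of_eq_neg K h2

end

end Pool.Agent.Helper884.LieId
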