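import Mathlib
import Pool.Agent.Helper884.LieId.Parity

set_option autoImplicit false

/-!
Relations satisfied by the square of an odd matrix.
-/

namespace Pool.Agent.Helper884.LieId

open Matrix
open Finset.HasAntidiagonal (antidiagonal)

section

variable {Λ : Type*} [Ring Λ] {σ : Λ →+* Λ}
variable {n : Type*} [Fintype n] [DecidableEq n]
variable (K : Type*) [Field K] [CharZero K] [Algebra K Λ] (hσ : ∀ w, σ (σ w) = w)
  {X : Matrix n n Λ} (hX : OdM σ X) (N : ℕ) (hN : Fintype.card n = N + 1)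
  {y : Matrix n n Λ} (hy : EvM σ y)

include K hσ hX hN hy in
theorem BE_eq_zero : (X * X) * hh (X * X) N y = 0 := by
  rw [mul_assoc, X_comm_E K hσ hX N hN hy, ← mul_assoc, XEX K hσ hX N hN hy]

include K hσ hX hN hy in
theorem EB_eq_zero : hh (X * X) N y * (X * X) = 0 := by
  rw [← mul_assoc, ← X_comm_E K hσ hX N hN hy, XEX K hσ hX N hN hy]

include K hσ hX hN in
theorem pow_eq_zero' {m : ℕ} (hm : N + 1 ≤ m) : (X * X) ^ m = 0 := by
  rw [← Nat.add_sub_cancel' hm, pow_add, sq_pow_eq_zero K hσ hX N hN, zero_mul]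

include K hσ hX hN hy in
/-- `h_m(y) = 0` for `m ≥ N + 1`. -/
theorem hh_y {m : ℕ} (hm : N + 1 ≤ m) : hh (X * X) m y = 0 := by
  induction m, hm using Nat.le_induction with
  | base =>
    rw [hh_succ, EB_eq_zero K hσ hX N hN hy, sq_pow_eq_zero K hσ hX N hN, zero_mul, add_zero]
  | succ m hm ih =>
    rw [hh_succ, ih, zero_mul, pow_eq_zero' K hσ hX N hN (by omega), zero_mul, add_zero]

include K hσ hX hN hy in
/-- `h_m(w) = 0` for `m ≥ N`, `w = [X, y]`. -/
theorem hh_w {m : ℕ} (hm : N ≤ m) : hh (X * X) m (X * y - y * X) = 0 := by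
  have hc : Commute X (X * X) := (Commute.refl X).mul_right (Commute.refl X)
  rw [hh_sub, ← hh_mul_left hc, ← hh_mul_right hc]
  rcases Nat.eq_or_lt_of_le hm with h | h
  · rw [← h, X_comm_E K hσ hX N hN hy, sub_self]
  · rw [hh_y K hσ hX N hN hy h, mul_zero, zero_mul, sub_zero]

/-- The truncated sums `g_m = ∑_{i+j=m-1} B^i w B^j`. -/
def gg {A : Type*} [Ring A] (B w : A) : ℕ → A
  | 0 => 0
  | (m + 1) => hh B m w

theorem gg_succ {A : Type*} [Ring A] (B w : A) (m : ℕ) :
    gg B w (m + 1) = gg B w m * B + B ^ m * w := by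
  cases m with
  | zero => simp [gg, hh_zero]
  | succ m => rw [gg, gg, hh_succ]

/-- First order perturbation in an anticommuting parameter. -/
theorem pow_sub_T {A : Type*} [Ring A] {T B w : A} (hTB : T * B = B * T) (hTw : T * w = -(w * T))
    (hTT : T * T = 0) (m : ℕ) : (B - T * w) ^ m = B ^ m - T * gg B w m := by
  induction m with
  | zero => simp [gg]
  | succ m ih =>
    have h0 : ∀ M : A, T * M * T = (T * M) * T := fun _ => rfl
    have hgT : ∀ m, gg B w m * T = - (T * gg B w m) := by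
      intro m
      induction m with
      | zero => simp [gg]
      | succ m ih =>
        have hBm : T * B ^ m = B ^ m * T := (Commute.pow_right hTB m)
        rw [gg_succ, add_mul, mul_add, mul_assoc, ← hTB, ← mul_assoc, ih, mul_assoc (B ^ m),
          ← neg_neg (w * T), ← hTw, mul_neg, ← mul_assoc (B ^ m), ← hBm]
        noncomm_ring
    rw [pow_succ, ih, gg_succ, pow_succ, sub_mul, mul_sub, mul_sub]
    have h1 : T * gg B w m * (T * w) = 0 := by
      rw [← mul_assoc, mul_assoc T, hgT, mul_neg, ← mul_assoc, hTT]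
      simp
    have hBm : T * B ^ m = B ^ m * T := (Commute.pow_right hTB m)
    rw [h1, ← mul_assoc (B ^ m), ← hBm]
    noncomm_ring

include K hσ hX hN hy in
/-- The relation obtained by perturbing `X` to `X + θ₀ y`. -/
theorem P1 {θ : Λ} (hθ : Od σ θ) {m : ℕ} (hm : N + 1 ≤ m) :
    ∑ p ∈ antidiagonal m, (θ • (gg (X * X) (X * y - y * X) p.1 * y * (X * X) ^ p.2 +
      (X * X) ^ p.1 * y * gg (X * X) (X * y - y * X) p.2)) = 0 := by
  set T : Matrix n n Λ := Matrix.diagonal fun _ => θ with hT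
  have hTsmul : ∀ M : Matrix n n Λ, θ • M = T * M := by
    intro M
    ext i j
    rw [hT, diagonal_mul]; rfl
  have hTodd : ∀ {M : Matrix n n Λ}, OdM σ M → T * M = -(M * T) := by
    intro M hM
    ext i j
    rw [Matrix.neg_apply, hT, diagonal_mul, mul_diagonal, hθ.1, (hM i j).2, neg_mul]
  have hTev : ∀ {M : Matrix n n Λ}, EvM σ M → T * M = M * T := by
    intro M hM
    ext i j
    rw [hT, diagonal_mul, mul_diagonal, (hM i j).1]
  have hTT : T * T = 0 := by
    rw [hT, diagonal_mul_diagonal]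
    have : θ * θ = 0 := by
      apply eq_zero_of_eq_neg K
      nth_rewrite 1 [hθ.1 θ]
      rw [hθ.2, neg_mul]
    ext i j
    rw [diagonal_apply]
    split_ifs <;> simp [this]
  have hBe := hX.mul hσ hX
  set B := X * X with hB
  set w := X * y - y * X with hw
  have hwod : OdM σ w := (hX.mul_ev hy).sub (hy.mul_od hX)
  have hX' : OdM σ (X + T * y) := by
    refine hX.add fun i j => ?_
    rw [hT, diagonal_mul]
    exact hθ.mul_ev (hy i j)
  have hsq : (X + T * y) * (X + T * y) = B - T * w := by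
    have h1 : T * y * (T * y) = 0 := by
      rw [hTev hy, mul_assoc, ← hTev hy, ← mul_assoc T T y, hTT]
      simp
    have h2 : X * (T * y) = -(T * (X * y)) := by
      rw [← mul_assoc, ← neg_neg (X * T), ← hTodd hX, neg_mul, mul_assoc]
    rw [add_mul, mul_add, mul_add, h1, h2, hB, hw, mul_sub]
    noncomm_ring
  have h := hh_y K hσ hX' N hN hy hm
  rw [hsq] at h
  have hTB : T * B = B * T := hTev hBe
  have hTw : T * w = -(w * T) := hTodd hwod
  have hgT : ∀ m, gg B w m * T = - (T * gg B w m) := by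
    intro m
    induction m with
    | zero => simp [gg]
    | succ m ih =>
      have hBm : T * B ^ m = B ^ m * T := (Commute.pow_right hTB m)
      rw [gg_succ, add_mul, mul_add, mul_assoc, ← hTB, ← mul_assoc, ih, mul_assoc (B ^ m),
        ← neg_neg (w * T), ← hTw, mul_neg, ← mul_assoc (B ^ m), ← hBm]
      noncomm_ring
  have h0 := hh_y K hσ hX N hN hy hm
  rw [hh] at h h0
  have hterm : ∀ p : ℕ × ℕ, (B - T * w) ^ p.1 * y * (B - T * w) ^ p.2 =
      B ^ p.1 * y * B ^ p.2 - θ • (gg B w p.1 * y * B ^ p.2 + B ^ p.1 * y * gg B w p.2) := by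
    intro p
    rw [pow_sub_T hTB hTw hTT, pow_sub_T hTB hTw hTT, hTsmul]
    have h1 : B ^ p.1 * y * (T * gg B w p.2) = T * (B ^ p.1 * y * gg B w p.2) := by
      rw [← mul_assoc, ← hTev ((hBe.pow _).mul hy), mul_assoc]
    have h2 : T * gg B w p.1 * y * (T * gg B w p.2) = 0 := by
      rw [← mul_assoc, mul_assoc _ y T, ← hTev hy, ← mul_assoc, mul_assoc T _ T, hgT, mul_neg,
        ← mul_assoc, hTT]
      simp
    rw [sub_mul, sub_mul, mul_sub, mul_sub, h1, h2]
    noncomm_ring
  rw [Finset.sum_congr rfl fun p _ => hterm p, Finset.sum_sub_distrib, h0, zero_sub,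
    neg_eq_zero] at h
  exact h

end

end Pool.Agent.Helper884.LieId
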