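import Mathlib
import Pool.Agent.Helper884.LieId.Rel
import Pool.Agent.Helper884.LieId.Omega

set_option autoImplicit false

/-!
The scalar relations and the trace identity.
-/

namespace Pool.Agent.Helper884.LieId

open Matrix
open Finset.HasAntidiagonal (antidiagonal)

section T3

variable {V : Type*} [AddCommGroup V]

/-- Sum over the triples of sum `m`. -/
def T3 (m : ℕ) (f : ℕ → ℕ → ℕ → V) : V :=
  ∑ p ∈ antidiagonal m, ∑ q ∈ antidiagonal p.1, f q.1 q.2 p.2

theorem T3_congr {m : ℕ} {f g : ℕ → ℕ → ℕ → V} (h : ∀ i j l, i + j + l = m → f i j l = g i j l) :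
    T3 m f = T3 m g := by
  refine Finset.sum_congr rfl fun p hp => Finset.sum_congr rfl fun q hq => h _ _ _ ?_
  rw [Finset.HasAntidiagonal.mem_antidiagonal] at hp hq
  rw [hq, hp]

theorem T3_add (m : ℕ) (f g : ℕ → ℕ → ℕ → V) :
    T3 m (fun i j l => f i j l + g i j l) = T3 m f + T3 m g := by
  simp only [T3, Finset.sum_add_distrib]

theorem T3_sub (m : ℕ) (f g : ℕ → ℕ → ℕ → V) :
    T3 m (fun i j l => f i j l - g i j l) = T3 m f - T3 m g := by
  simp only [T3, Finset.sum_sub_distrib]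

theorem T3_neg (m : ℕ) (f : ℕ → ℕ → ℕ → V) :
    T3 m (fun i j l => - f i j l) = - T3 m f := by
  simp only [T3, Finset.sum_neg_distrib]

theorem T3_cyc (m : ℕ) (f : ℕ → ℕ → ℕ → V) : T3 m (fun i j l => f j l i) = T3 m f := by
  symm
  simp only [T3, Finset.sum_sigma']
  apply Finset.sum_nbij' (fun ⟨⟨_s, l⟩, ⟨i, j⟩⟩ => ⟨(l + i, j), (l, i)⟩)
    (fun ⟨⟨_s, l⟩, ⟨i, j⟩⟩ => ⟨(j + l, i), (j, l)⟩) <;>
    simp only [Finset.mem_sigma, Finset.HasAntidiagonal.mem_antidiagonal, Sigma.forall, Prod.forall] <;>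
    intro a b c d h
  · exact ⟨by omega, trivial⟩
  · exact ⟨by omega, trivial⟩
  · obtain ⟨h1, h2⟩ := h
    subst h2
    rfl
  · obtain ⟨h1, h2⟩ := h
    subst h2
    rfl
  · trivial

theorem T3_cyc' (m : ℕ) (f : ℕ → ℕ → ℕ → V) : T3 m (fun i j l => f l i j) = T3 m f := by
  rw [← T3_cyc m (fun i j l => f l i j)]

theorem T3_weight (m : ℕ) (f : ℕ → ℕ → ℕ → V) (hf : ∀ i j l, f i j l = f j l i) :
    3 • T3 m (fun i j l => l • f i j l) = m • T3 m f := by
  have h1 : T3 m (fun i j l => i • f i j l) = T3 m (fun i j l => l • f i j l) := by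
    rw [← T3_cyc m (fun i j l => l • f i j l)]
    exact T3_congr fun i j l _ => by rw [hf]
  have h2 : T3 m (fun i j l => j • f i j l) = T3 m (fun i j l => l • f i j l) := by
    rw [← T3_cyc' m (fun i j l => l • f i j l)]
    exact T3_congr fun i j l _ => by rw [hf, hf]
  have h3 : T3 m (fun i j l => i • f i j l + j • f i j l + l • f i j l) = m • T3 m f := by
    rw [T3_congr (g := fun i j l => m • f i j l) fun i j l h => by rw [← h, add_smul, add_smul]]
    simp only [T3, Finset.smul_sum]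
  rw [← h3, T3_add, T3_add, h1, h2]
  abel

end T3

section

variable {Λ : Type*} [Ring Λ] {σ : Λ →+* Λ}
variable {n : Type*} [Fintype n] [DecidableEq n]

/-- `tr (B^i y B^j y B^l y)` -/
def sS (B y : Matrix n n Λ) (i j l : ℕ) : Λ := trace (B ^ i * y * (B ^ j * y) * (B ^ l * y))

/-- `tr (B^i w B^j w B^l y)` -/
def sF (B w y : Matrix n n Λ) (i j l : ℕ) : Λ := trace (B ^ i * w * (B ^ j * w) * (B ^ l * y))

/-- `tr (X B^i y X B^j y B^l y)` -/
def sO' (X B y : Matrix n n Λ) (i j l : ℕ) : Λ :=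
  trace (X * (B ^ i * y) * (X * (B ^ j * y)) * (B ^ l * y))

/-- The cyclic scalar `O`. -/
def sO (B w y : Matrix n n Λ) (i j l : ℕ) : Λ := sF B w y i j l + sS B y i (j + 1) l

variable (K : Type*) [Field K] [CharZero K] [Algebra K Λ] (hσ : ∀ w, σ (σ w) = w)
  {X : Matrix n n Λ} (hX : OdM σ X) {y : Matrix n n Λ} (hy : EvM σ y)

omit [DecidableEq n] in
theorem trace_cyc_ev {P Q R : Matrix n n Λ} (hP : EvM σ P) :
    trace (P * Q * R) = trace (Q * R * P) := by
  rw [mul_assoc, hP.trace_comm]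

theorem sS_cyc {B : Matrix n n Λ} (hB : EvM σ B) (hy : EvM σ y) (i j l : ℕ) :
    sS B y i j l = sS B y j l i := by
  rw [sS, sS, trace_cyc_ev ((hB.pow i).mul hy)]

include hσ hX hy in
theorem sO_eq (i j l : ℕ) :
    sO (X * X) (X * y - y * X) y i j l =
      sO' X (X * X) y i j l + sO' X (X * X) y j l i + sO' X (X * X) y l i j := by
  have hBe := hX.mul hσ hX
  rw [sO, sF]
  have hXB : ∀ k, (X * X) ^ k * X = X * (X * X) ^ k := fun k => (X_comm_pow X k).symm
  have e1 : ∀ k, (X * X) ^ k * (X * y - y * X) = X * ((X * X) ^ k * y) - (X * X) ^ k * y * X := by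
    intro k
    rw [mul_sub, ← mul_assoc, hXB, mul_assoc, mul_assoc ((X * X) ^ k) y X]
  rw [e1, e1]
  have e2 : (X * ((X * X) ^ i * y) - (X * X) ^ i * y * X) *
      (X * ((X * X) ^ j * y) - (X * X) ^ j * y * X) * ((X * X) ^ l * y) =
      X * ((X * X) ^ i * y) * (X * ((X * X) ^ j * y)) * ((X * X) ^ l * y)
      - (X * ((X * X) ^ i * y) * ((X * X) ^ j * y)) * (X * ((X * X) ^ l * y))
      - (X * X) ^ i * y * ((X * X) ^ (j + 1) * y) * ((X * X) ^ l * y)
      + (X * X) ^ i * y * (X * ((X * X) ^ j * y)) * (X * ((X * X) ^ l * y)) := by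
    have : (X * X) ^ (j + 1) = X * (X * (X * X) ^ j) := by rw [pow_succ', mul_assoc]
    rw [this]
    noncomm_ring
  rw [e2, trace_add, trace_sub, trace_sub]
  have hB' : ∀ k, EvM σ ((X * X) ^ k * y) := fun k => (hBe.pow k).mul hy
  have e3 : trace ((X * ((X * X) ^ i * y) * ((X * X) ^ j * y)) * (X * ((X * X) ^ l * y))) =
      - sO' X (X * X) y l i j := by
    rw [((hX.mul_ev (hB' i)).mul_ev (hB' j)).trace_comm (hX.mul_ev (hB' l)), sO']
    simp only [mul_assoc]
  have e4 : trace ((X * X) ^ i * y * (X * ((X * X) ^ j * y)) * (X * ((X * X) ^ l * y))) =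
      sO' X (X * X) y j l i := by
    rw [trace_cyc_ev (hB' i), sO']
  rw [e3, e4, ← sO', ← sS]
  abel

include hσ hX hy in
theorem sO_cyc (i j l : ℕ) :
    sO (X * X) (X * y - y * X) y i j l = sO (X * X) (X * y - y * X) y j l i := by
  rw [sO_eq hσ hX hy, sO_eq hσ hX hy]
  abel

variable (N : ℕ) (hN : Fintype.card n = N + 1)

omit [DecidableEq n] in
theorem trace_sum_mul {ι : Type*} (s : Finset ι) (f : ι → Matrix n n Λ) (M : Matrix n n Λ) :
    ∑ i ∈ s, trace (f i * M) = trace ((∑ i ∈ s, f i) * M) := by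
  rw [Finset.sum_mul, trace_sum]

theorem sS_line (B : Matrix n n Λ) (m l : ℕ) :
    ∑ q ∈ antidiagonal m, sS B y q.1 q.2 l = trace (hh B m y * (y * (B ^ l * y))) := by
  simp only [sS, hh, Finset.sum_mul, trace_sum, mul_assoc]

theorem sF_line (B w : Matrix n n Λ) (m l : ℕ) :
    ∑ q ∈ antidiagonal m, sF B w y q.1 q.2 l = trace (hh B m w * (w * (B ^ l * y))) := by
  simp only [sF, hh, Finset.sum_mul, trace_sum, mul_assoc]

include K hσ hX hN hy in
theorem sS_line_zero {m : ℕ} (hm : N + 1 ≤ m) (l : ℕ) :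
    ∑ q ∈ antidiagonal m, sS (X * X) y q.1 q.2 l = 0 := by
  rw [sS_line, hh_y K hσ hX N hN hy hm, zero_mul, trace_zero]

include K hσ hX hN in
theorem sS_zero_last (i j : ℕ) {l : ℕ} (hl : N + 1 ≤ l) : sS (X * X) y i j l = 0 := by
  rw [sS, pow_eq_zero' K hσ hX N hN hl]
  simp

include K hσ hX hN in
theorem sS_zero_first {i : ℕ} (hi : N + 1 ≤ i) (j l : ℕ) : sS (X * X) y i j l = 0 := by
  rw [sS, pow_eq_zero' K hσ hX N hN hi]
  simp

include K hσ hX hN in
theorem sO_zero_last (i j : ℕ) {l : ℕ} (hl : N + 1 ≤ l) :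
    sO (X * X) (X * y - y * X) y i j l = 0 := by
  rw [sO, sF, sS_zero_last K hσ hX N hN i _ hl, pow_eq_zero' K hσ hX N hN hl]
  simp

include K hσ hX hN hy in
theorem sO_line_zero {m : ℕ} (hm : N ≤ m) (l : ℕ) :
    ∑ q ∈ antidiagonal m, sO (X * X) (X * y - y * X) y q.1 q.2 l = 0 := by
  simp only [sO, Finset.sum_add_distrib]
  rw [sF_line, hh_w K hσ hX N hN hy hm, zero_mul, trace_zero, zero_add]
  have h := sS_line_zero K hσ hX hy N hN (m := m + 1) (by omega) l
  rw [Finset.Nat.sum_antidiagonal_succ', sS_zero_first K hσ hX N hN (by omega), zero_add] at h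
  exact h

end

end Pool.Agent.Helper884.LieId
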