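import Mathlib
import Pool.Agent.Helper884.LieId.Scal

set_option autoImplicit false

/-!
The scalar relations and the trace identity.
-/

namespace Pool.Agent.Helper884.LieId

open Matrix
open Finset.HasAntidiagonal (antidiagonal)

section

variable {Λ : Type*} [Ring Λ] {σ : Λ →+* Λ}
variable {n : Type*} [Fintype n] [DecidableEq n]

theorem T3_two {V : Type*} [AddCommGroup V] (m : ℕ) (f : ℕ → ℕ → ℕ → V) (a b : ℕ × ℕ)
    (hab : a ≠ b) (ha : a.1 + a.2 = m) (hb : b.1 + b.2 = m)
    (h : ∀ p : ℕ × ℕ, p.1 + p.2 = m → p ≠ a → p ≠ b → ∑ q ∈ antidiagonal p.1, f q.1 q.2 p.2 = 0) :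
    T3 m f = ∑ q ∈ antidiagonal a.1, f q.1 q.2 a.2 + ∑ q ∈ antidiagonal b.1, f q.1 q.2 b.2 := by
  rw [T3]
  refine Finset.sum_eq_add a b hab (fun c hc hc' => ?_) (fun h' => ?_) (fun h' => ?_)
  · rw [Finset.HasAntidiagonal.mem_antidiagonal] at hc
    exact h c hc hc'.1 hc'.2
  · rw [Finset.HasAntidiagonal.mem_antidiagonal] at h'
    exact absurd ha h'
  · rw [Finset.HasAntidiagonal.mem_antidiagonal] at h'
    exact absurd hb h'

/-- `∑_{i+j=M+2} tr (B^i y B^j y B^(M+1) y)` -/
def mu (M : ℕ) (B y : Matrix n n Λ) : Λ := ∑ q ∈ antidiagonal (M + 2), sS B y q.1 q.2 (M + 1)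

/-- `∑_{i+j=M+1} tr (B^i y B^j y B^(M+2) y)` -/
def rho (M : ℕ) (B y : Matrix n n Λ) : Λ := ∑ q ∈ antidiagonal (M + 1), sS B y q.1 q.2 (M + 2)

/-- `∑_{i+j=M+1} O(i,j,M+1)` -/
def sig1 (M : ℕ) (B w y : Matrix n n Λ) : Λ := ∑ q ∈ antidiagonal (M + 1), sO B w y q.1 q.2 (M + 1)

/-- `∑_{i+j=M} O(i,j,M+2)` -/
def sig2 (M : ℕ) (B w y : Matrix n n Λ) : Λ := ∑ q ∈ antidiagonal M, sO B w y q.1 q.2 (M + 2)

variable (K : Type*) [Field K] [CharZero K] [Algebra K Λ] (hσ : ∀ w, σ (σ w) = w)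
  {X : Matrix n n Λ} (hX : OdM σ X) {y : Matrix n n Λ} (hy : EvM σ y)
  (M : ℕ) (hM : Fintype.card n = M + 2 + 1)

include K hσ hX hM hy in
theorem T3_sS (c : ℕ → ℕ) :
    T3 (2 * M + 3) (fun i j l => c l • sS (X * X) y i j l) =
      c (M + 2) • rho M (X * X) y + c (M + 1) • mu M (X * X) y := by
  rw [T3_two (2 * M + 3) _ (M + 1, M + 2) (M + 2, M + 1) (by simp) (by simp; omega)
    (by simp; omega)]
  · simp only [rho, mu, Finset.smul_sum]
  · rintro ⟨p, l⟩ hp ha hb
    simp only [← Finset.smul_sum] at *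
    by_cases h : M + 3 ≤ l
    · rw [Finset.sum_eq_zero fun q _ => sS_zero_last K hσ hX (M + 2) hM _ _ h, smul_zero]
    · rw [sS_line_zero K hσ hX hy (M + 2) hM, smul_zero]
      simp only [ne_eq, Prod.mk.injEq, not_and] at ha hb
      omega

include K hσ hX hM hy in
theorem T3_sO (c : ℕ → ℕ) :
    T3 (2 * M + 2) (fun i j l => c l • sO (X * X) (X * y - y * X) y i j l) =
      c (M + 2) • sig2 M (X * X) (X * y - y * X) y + c (M + 1) • sig1 M (X * X) (X * y - y * X) y := by
  rw [T3_two (2 * M + 2) _ (M, M + 2) (M + 1, M + 1) (by simp) (by simp; omega)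
    (by simp; omega)]
  · simp only [sig1, sig2, Finset.smul_sum]
  · rintro ⟨p, l⟩ hp ha hb
    simp only [← Finset.smul_sum] at *
    by_cases h : M + 3 ≤ l
    · rw [Finset.sum_eq_zero fun q _ => sO_zero_last K hσ hX (M + 2) hM _ _ h, smul_zero]
    · rw [sO_line_zero K hσ hX hy (M + 2) hM, smul_zero]
      simp only [ne_eq, Prod.mk.injEq, not_and] at ha hb
      omega

include K hσ hX hM hy in
theorem eq1 : M • mu M (X * X) y + (M + 3) • rho M (X * X) y = 0 := by
  have hBe := hX.mul hσ hX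
  have h := T3_weight (2 * M + 3) (sS (X * X) y) (sS_cyc hBe hy)
  have h1 := T3_sS K hσ hX hy M hM id
  have h2 := T3_sS K hσ hX hy M hM fun _ => 1
  simp only [one_smul, id] at h1 h2
  rw [h1, h2] at h
  rw [← sub_eq_zero] at h
  rw [← h]
  simp only [add_smul, smul_add, one_smul, mul_smul]
  module

include K hσ hX hM hy in
theorem eq2 : (M + 1) • sig1 M (X * X) (X * y - y * X) y +
    (M + 4) • sig2 M (X * X) (X * y - y * X) y = 0 := by
  have h := T3_weight (2 * M + 2) (sO (X * X) (X * y - y * X) y) (sO_cyc hσ hX hy)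
  have h1 := T3_sO K hσ hX hy M hM id
  have h2 := T3_sO K hσ hX hy M hM fun _ => 1
  simp only [one_smul, id] at h1 h2
  rw [h1, h2] at h
  rw [← sub_eq_zero] at h
  rw [← h]
  simp only [add_smul, smul_add, one_smul, mul_smul]
  module

include K hσ hX hM hy in
theorem T3_sS_shift :
    T3 (2 * M + 2) (fun i j l => sS (X * X) y i j (l + 1)) =
      rho M (X * X) y + mu M (X * X) y := by
  rw [T3_two (2 * M + 2) _ (M + 1, M + 1) (M + 2, M) (by simp) (by simp; omega)
    (by simp; omega)]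
  · simp only [rho, mu]
  · rintro ⟨p, l⟩ hp ha hb
    simp only at *
    by_cases h : M + 3 ≤ l + 1
    · exact Finset.sum_eq_zero fun q _ => sS_zero_last K hσ hX (M + 2) hM _ _ h
    · rw [sS_line_zero K hσ hX hy (M + 2) hM]
      simp only [ne_eq, Prod.mk.injEq, not_and] at ha hb
      omega

include hσ hX hy in
theorem tr_A1 (a b j : ℕ) :
    trace ((X * X) ^ a * (X * y - y * X) * (X * X) ^ b * y * (X * X) ^ j * (X * y)) =
      - sO' X (X * X) y j a b - sO' X (X * X) y b j a := by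
  have hBe := hX.mul hσ hX
  have hXB : ∀ k, (X * X) ^ k * X = X * (X * X) ^ k := fun k => (X_comm_pow X k).symm
  have hB' : ∀ k, EvM σ ((X * X) ^ k * y) := fun k => (hBe.pow k).mul hy
  have e1 : ∀ k, (X * X) ^ k * (X * y - y * X) = X * ((X * X) ^ k * y) - (X * X) ^ k * y * X := by
    intro k
    rw [mul_sub, ← mul_assoc, hXB, mul_assoc, mul_assoc ((X * X) ^ k) y X]
  have e2 : (X * X) ^ a * (X * y - y * X) * (X * X) ^ b * y * (X * X) ^ j * (X * y) =
      X * ((X * X) ^ a * y) * ((X * X) ^ b * y) * (X * ((X * X) ^ j * y)) -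
      (X * X) ^ a * y * (X * ((X * X) ^ b * y)) * (X * ((X * X) ^ j * y)) := by
    rw [e1]
    have : (X * X) ^ j * (X * y) = X * ((X * X) ^ j * y) := by
      rw [← mul_assoc, hXB, mul_assoc]
    rw [mul_assoc _ ((X * X) ^ j) (X * y), this]
    noncomm_ring
  rw [e2, trace_sub, ((hX.mul_ev (hB' a)).mul_ev (hB' b)).trace_comm (hX.mul_ev (hB' j)),
    trace_cyc_ev (hB' a), sO', sO']
  simp only [mul_assoc]

include hσ hX hy in
theorem tr_A2 (a b i : ℕ) :
    trace ((X * X) ^ i * y * ((X * X) ^ a * (X * y - y * X) * (X * X) ^ b) * (X * y)) =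
      sO' X (X * X) y a b i - sS (X * X) y i a (b + 1) := by
  have hBe := hX.mul hσ hX
  have hXB : ∀ k, (X * X) ^ k * X = X * (X * X) ^ k := fun k => (X_comm_pow X k).symm
  have hB' : ∀ k, EvM σ ((X * X) ^ k * y) := fun k => (hBe.pow k).mul hy
  have e1 : ∀ k, (X * X) ^ k * (X * y - y * X) = X * ((X * X) ^ k * y) - (X * X) ^ k * y * X := by
    intro k
    rw [mul_sub, ← mul_assoc, hXB, mul_assoc, mul_assoc ((X * X) ^ k) y X]
  have e2 : (X * X) ^ i * y * ((X * X) ^ a * (X * y - y * X) * (X * X) ^ b) * (X * y) =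
      (X * X) ^ i * y * (X * ((X * X) ^ a * y)) * (X * ((X * X) ^ b * y)) -
      (X * X) ^ i * y * ((X * X) ^ a * y) * ((X * X) ^ (b + 1) * y) := by
    have h3 : (X * X) ^ (b + 1) = X * (X * (X * X) ^ b) := by rw [pow_succ', mul_assoc]
    have h4 : (X * X) ^ b * (X * y) = X * ((X * X) ^ b * y) := by
      rw [← mul_assoc, hXB, mul_assoc]
    rw [e1, h3, mul_assoc ((X * X) ^ i * y), mul_assoc _ ((X * X) ^ b) (X * y), h4]
    noncomm_ring
  rw [e2, trace_sub, trace_cyc_ev (hB' i), sO', sS]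

include K hσ hX hM hy in
theorem eq3 {θ : Λ} (hθ : Od σ θ) :
    θ * (sig1 M (X * X) (X * y - y * X) y + sig2 M (X * X) (X * y - y * X) y +
      3 • (mu M (X * X) y + rho M (X * X) y)) = 0 := by
  set B := X * X with hB
  set w := X * y - y * X with hw
  have h := P1 K hσ hX (M + 2) hM hy hθ (m := 2 * M + 3) (by omega)
  have h' := congrArg (fun Z => trace (Z * (X * y))) h
  simp only [zero_mul, trace_zero, Finset.sum_mul, trace_sum, smul_mul_assoc, trace_smul,
    smul_eq_mul, ← Finset.mul_sum, add_mul, trace_add, Finset.sum_add_distrib] at h'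
  rw [← hB, ← hw] at h'
  have e1 : ∑ p ∈ antidiagonal (2 * M + 3), trace (gg B w p.1 * y * B ^ p.2 * (X * y)) =
      T3 (2 * M + 2) (fun a b j => trace (B ^ a * w * B ^ b * y * B ^ j * (X * y))) := by
    rw [Finset.Nat.sum_antidiagonal_succ]
    simp only [gg, zero_mul, trace_zero, zero_add, hh, T3, Finset.sum_mul, trace_sum]
  have e2 : ∑ p ∈ antidiagonal (2 * M + 3), trace (B ^ p.1 * y * gg B w p.2 * (X * y)) =
      T3 (2 * M + 2) (fun a b i => trace (B ^ i * y * (B ^ a * w * B ^ b) * (X * y))) := by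
    rw [Finset.Nat.sum_antidiagonal_succ', ← Finset.Nat.sum_antidiagonal_swap]
    simp only [gg, mul_zero, zero_mul, trace_zero, zero_add, hh, T3, Finset.sum_mul,
      Finset.mul_sum, trace_sum, Prod.fst_swap, Prod.snd_swap]
  rw [e1, e2, T3_congr fun a b j _ => tr_A1 hσ hX hy a b j,
    T3_congr fun a b i _ => tr_A2 hσ hX hy a b i] at h'
  rw [T3_sub, T3_sub, T3_neg] at h'
  have f1 := T3_cyc' (2 * M + 2) (fun i j l => sO' X (X * X) y i j l)
  have f2 := T3_cyc (2 * M + 2) (fun i j l => sO' X (X * X) y i j l)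
  have f3 := T3_cyc' (2 * M + 2) (fun i j l => sS (X * X) y i j (l + 1))
  have f4 := T3_sS_shift K hσ hX hy M hM
  have f5 := T3_sO K hσ hX hy M hM fun _ => 1
  simp only [one_smul] at f5
  rw [T3_congr fun a b j _ => sO_eq hσ hX hy a b j, T3_add, T3_add] at f5
  rw [f1, f2] at f5
  rw [f1, f2, f3, f4] at h'
  change θ * (-T3 (2 * M + 2) (sO' X (X * X) y) - T3 (2 * M + 2) (sO' X (X * X) y) +
    (T3 (2 * M + 2) (sO' X (X * X) y) - (rho M (X * X) y + mu M (X * X) y))) = 0 at h'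
  change T3 (2 * M + 2) (sO' X (X * X) y) + T3 (2 * M + 2) (sO' X (X * X) y) +
    T3 (2 * M + 2) (sO' X (X * X) y) = _ at f5
  have g1 : sig1 M B w y + sig2 M B w y + 3 • (mu M B y + rho M B y) =
      -((3 : ℕ) • (-T3 (2 * M + 2) (sO' X (X * X) y) - T3 (2 * M + 2) (sO' X (X * X) y) +
    (T3 (2 * M + 2) (sO' X (X * X) y) - (rho M (X * X) y + mu M (X * X) y)))) := by
    rw [add_comm (sig1 M B w y), ← hB, ← hw] at *
    rw [← f5]
    module
  rw [g1, mul_neg, mul_smul_comm, h', smul_zero, neg_zero]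

include K hσ hX hM hy in
theorem hh_w_mul_pow (k : ℕ) :
    hh (X * X) (M + 1) (X * y - y * X) * (X * X) ^ (k + 1) =
      - ((X * X) ^ (M + 2) * (X * y - y * X) * (X * X) ^ k) := by
  have h := hh_w K hσ hX (M + 2) hM hy (m := M + 2) le_rfl
  rw [hh_succ] at h
  rw [pow_succ', ← mul_assoc, eq_neg_of_add_eq_zero_left h, neg_mul]

include K hσ hX hM hy in
theorem eqQ :
    trace (hh (X * X) (M + 1) (X * y - y * X) * hh (X * X) (M + 1) (X * y - y * X) * y) =
      sig1 M (X * X) (X * y - y * X) y - sig2 M (X * X) (X * y - y * X) y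
        - mu M (X * X) y + rho M (X * X) y := by
  have hBe := hX.mul hσ hX
  have hs := fun i j l => sS_cyc (B := X * X) hBe hy i j l
  have hO := fun i j l => sO_cyc hσ hX hy i j l
  have hpow := hh_w_mul_pow K hσ hX hy M hM
  set B := X * X with hB
  set w := X * y - y * X with hw
  have e1 : trace (hh B (M + 1) w * hh B (M + 1) w * y) =
      ∑ q ∈ antidiagonal (M + 1), sF B w y q.1 q.2 (M + 1) -
        ∑ q ∈ antidiagonal M, sF B w y (M + 2) q.1 q.2 := by
    conv_lhs => rw [hh, ← hh]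
    rw [sF_line]
    have : hh B (M + 1) w * hh B (M + 1) w * y =
        hh B (M + 1) w * (w * (B ^ (M + 1) * y)) -
        ∑ q ∈ antidiagonal M, (B ^ (M + 2) * w * (B ^ q.1 * w) * (B ^ q.2 * y)) := by
      conv_lhs =>
        rw [show hh B (M + 1) w * hh B (M + 1) w * y = hh B (M + 1) w *
          (∑ p ∈ antidiagonal (M + 1), B ^ p.1 * w * B ^ p.2) * y from rfl]
      rw [Finset.Nat.sum_antidiagonal_succ, mul_add, add_mul, sub_eq_add_neg]
      congr 1
      · simp only [pow_zero, one_mul, mul_assoc]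
      · rw [Finset.mul_sum, Finset.sum_mul, ← Finset.sum_neg_distrib]
        refine Finset.sum_congr rfl fun q _ => ?_
        rw [← mul_assoc, ← mul_assoc, hpow]
        noncomm_ring
    rw [this, trace_sub, trace_sum]
    rfl
  have e2 : sig1 M B w y = ∑ q ∈ antidiagonal (M + 1), sF B w y q.1 q.2 (M + 1) +
      (mu M B y - sS B y (M + 2) 0 (M + 1)) := by
    have h1 : ∑ q ∈ antidiagonal (M + 2), sS B y q.1 q.2 (M + 1) = sS B y (M + 2) 0 (M + 1) +
        ∑ q ∈ antidiagonal (M + 1), sS B y q.1 (q.2 + 1) (M + 1) :=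
      Finset.Nat.sum_antidiagonal_succ'
    rw [sig1, mu, h1, add_sub_cancel_left]
    simp only [sO, Finset.sum_add_distrib]
  have e3 : sig2 M B w y = ∑ q ∈ antidiagonal M, sF B w y (M + 2) q.1 q.2 +
      (rho M B y - sS B y (M + 2) 0 (M + 1)) := by
    rw [sig2, rho]
    have h1 : ∑ q ∈ antidiagonal (M + 1), sS B y q.1 q.2 (M + 2) =
        ∑ q ∈ antidiagonal (M + 1), sS B y (M + 2) q.1 q.2 :=
      Finset.sum_congr rfl fun q _ => (hs _ _ _).symm
    have h2 : ∑ q ∈ antidiagonal M, sO B w y q.1 q.2 (M + 2) =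
        ∑ q ∈ antidiagonal M, sO B w y (M + 2) q.1 q.2 :=
      Finset.sum_congr rfl fun q _ => (hO _ _ _).symm
    rw [h1, h2, Finset.Nat.sum_antidiagonal_succ, add_sub_cancel_left]
    simp only [sO, Finset.sum_add_distrib]
  rw [e1, e2, e3]
  abel

omit [DecidableEq n] in
theorem trace_neg_one_pow [DecidableEq n] (k : ℕ) (Z : Matrix n n Λ) :
    trace ((-1) ^ k * Z) = (-1) ^ k * trace Z := by
  induction k with
  | zero => simp
  | succ k ih =>
    have h1 : (-1 : Matrix n n Λ) ^ (k + 1) * Z = - ((-1) ^ k * Z) := by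
      rw [pow_succ']; noncomm_ring
    rw [h1, trace_neg, ih, pow_succ']
    noncomm_ring

/-- The first sum of traces. -/
def Psi1 (M : ℕ) (B w y : Matrix n n Λ) : Λ :=
  ∑ p ∈ antidiagonal (2 * M + 2), (2 * M + 4).choose (p.1 + 1) •
    trace ((adp B p.1 w * adp B p.2 w + adp B p.2 w * adp B p.1 w) * y)

/-- The second sum of traces. -/
def Psi2 (M : ℕ) (B y : Matrix n n Λ) : Λ :=
  ∑ p ∈ antidiagonal (2 * M + 3), (2 * M + 4).choose (p.2 + 1) •
    trace ((adp B p.1 y * adp B p.2 y - adp B p.2 y * adp B p.1 y) * y)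

include K hσ hX hM hy in
theorem Psi1_eq : Psi1 M (X * X) (X * y - y * X) y =
    (-1) ^ (M + 1) * ((2 * (2 * M + 4).choose (M + 2)) •
      trace (hh (X * X) (M + 1) (X * y - y * X) * hh (X * X) (M + 1) (X * y - y * X) * y)) := by
  have hz := fun m (hm : M + 2 ≤ m) => hh_w K hσ hX (M + 2) hM hy hm
  set B := X * X with hB
  set w := X * y - y * X with hw
  have h1 : Psi1 M B w y = 2 • ∑ p ∈ antidiagonal (2 * M + 2), (2 * M + 4).choose (p.1 + 1) •
      trace (adp B p.1 w * adp B p.2 w * y) := by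
    rw [Psi1, two_smul]
    simp only [add_mul, trace_add, smul_add, Finset.sum_add_distrib]
    congr 1
    rw [← Finset.Nat.sum_antidiagonal_swap]
    refine Finset.sum_congr rfl fun p hp => ?_
    rw [Finset.HasAntidiagonal.mem_antidiagonal] at hp
    rw [Prod.fst_swap, Prod.snd_swap,
      Nat.choose_symm_of_eq_add (show 2 * M + 4 = (p.2 + 1) + (p.1 + 1) by omega)]
  have h2 : ∑ p ∈ antidiagonal (2 * M + 2), (2 * M + 4).choose (p.1 + 1) •
      trace (adp B p.1 w * adp B p.2 w * y) =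
      trace ((∑ p ∈ antidiagonal (2 * M + 2), (2 * M + 4).choose (p.1 + 1) •
      (adp B p.1 w * adp B p.2 w)) * y) := by
    simp only [Finset.sum_mul, trace_sum, smul_mul_assoc, trace_smul]
  rw [h1, h2, omega_one B w w (2 * M + 2), Finset.sum_eq_single (M + 1, M + 1)]
  · rw [smul_mul_assoc, trace_smul, mul_smul_comm, mul_smul]
    congr 2
    rw [mul_assoc, trace_neg_one_pow]
  · rintro ⟨a, b⟩ hp hne
    rw [Finset.HasAntidiagonal.mem_antidiagonal] at hp
    simp only [ne_eq, Prod.mk.injEq, not_and] at hne hp ⊢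
    by_cases ha : M + 2 ≤ a
    · rw [hz a ha]; simp
    · rw [hz b (by omega)]; simp
  · intro h
    exact absurd (by rw [Finset.HasAntidiagonal.mem_antidiagonal]; omega) h

include K hσ hX hM hy in
theorem Psi2_eq : Psi2 M (X * X) y =
    (-1) ^ (M + 1) * (2 • ((2 * M + 4).choose (M + 2) • rho M (X * X) y -
      (2 * M + 4).choose (M + 3) • mu M (X * X) y)) := by
  have hBe := hX.mul hσ hX
  have hs := fun i j l => sS_cyc (B := X * X) hBe hy i j l
  have hz := fun m (hm : M + 3 ≤ m) => hh_y K hσ hX (M + 2) hM hy hm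
  have hzp := fun m (hm : M + 3 ≤ m) => pow_eq_zero' K hσ hX (M + 2) hM hm
  set B := X * X with hB
  have h0 : Psi2 M B y = trace ((∑ p ∈ antidiagonal (2 * M + 3), (2 * M + 4).choose (p.2 + 1) •
      (adp B p.1 y * adp B p.2 y)) * y) - trace ((∑ p ∈ antidiagonal (2 * M + 3),
      (2 * M + 4).choose (p.1 + 1) • (adp B p.1 y * adp B p.2 y)) * y) := by
    have h1 : ∑ p ∈ antidiagonal (2 * M + 3), (2 * M + 4).choose (p.1 + 1) •
      (adp B p.1 y * adp B p.2 y) = ∑ p ∈ antidiagonal (2 * M + 3), (2 * M + 4).choose (p.2 + 1) •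
      (adp B p.2 y * adp B p.1 y) := by
      rw [← Finset.Nat.sum_antidiagonal_swap]
      rfl
    rw [h1, ← trace_sub, ← sub_mul, ← Finset.sum_sub_distrib, Psi2, Finset.sum_mul, trace_sum]
    refine Finset.sum_congr rfl fun p _ => ?_
    rw [← smul_sub, smul_mul_assoc, trace_smul]
  have h1 : trace (B ^ (M + 2) * y * hh B (M + 1) y * y) = rho M B y := by
    rw [rho, hh, Finset.mul_sum, Finset.sum_mul, trace_sum]
    refine Finset.sum_congr rfl fun q _ => ?_
    rw [← hs, sS]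
    simp only [mul_assoc]
  have h2 : trace (B ^ (M + 1) * y * hh B (M + 2) y * y) = mu M B y := by
    rw [mu, hh, Finset.mul_sum, Finset.sum_mul, trace_sum]
    refine Finset.sum_congr rfl fun q _ => ?_
    rw [← hs, sS]
    simp only [mul_assoc]
  have h3 : trace (hh B (M + 1) y * y * B ^ (M + 2) * y) = rho M B y := by
    rw [rho, sS_line]
    simp only [mul_assoc]
  have h4 : trace (hh B (M + 2) y * y * B ^ (M + 1) * y) = mu M B y := by
    rw [mu, sS_line]
    simp only [mul_assoc]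
  rw [h0, omega B y y (2 * M + 3), omega_star B y y (2 * M + 3),
    Finset.sum_eq_add (M + 1, M + 2) (M + 2, M + 1), Finset.sum_eq_add (M + 1, M + 2) (M + 2, M + 1)]
  · simp only [add_mul, trace_add, smul_mul_assoc, trace_smul]
    have hc : (2 * M + 3 + 1).choose (M + 1) = (2 * M + 3 + 1).choose (M + 3) :=
      Nat.choose_symm_of_eq_add (by omega)
    have g : ∀ (k : ℕ) (Z : Matrix n n Λ), (-1) ^ k * Z * y = (-1) ^ k * (Z * y) := fun k Z =>
      mul_assoc _ _ _
    simp only [g, trace_neg_one_pow]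
    rw [h1, h2, h3, h4, hc]
    have e : (-1 : Λ) ^ (M + 2) = - (-1) ^ (M + 1) := by rw [pow_succ]; simp
    rw [e]
    simp only [mul_smul_comm, mul_sub, neg_mul]
    have : 2 * M + 3 + 1 = 2 * M + 4 := rfl
    rw [this]
    have e4 : M + 2 + 1 = M + 3 := rfl
    have e5 : M + 1 + 1 = M + 2 := rfl
    rw [e4, e5]
    module
  · simp
  · rintro ⟨a, b⟩ hp hne
    rw [Finset.HasAntidiagonal.mem_antidiagonal] at hp
    simp only [ne_eq, Prod.mk.injEq, not_and] at hne hp ⊢
    by_cases ha : M + 3 ≤ a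
    · rw [hz a ha]; simp
    · rw [hzp b (by omega)]; simp
  · intro h
    exact absurd (by rw [Finset.HasAntidiagonal.mem_antidiagonal]; omega) h
  · intro h
    exact absurd (by rw [Finset.HasAntidiagonal.mem_antidiagonal]; omega) h
  · simp
  · rintro ⟨a, b⟩ hp hne
    rw [Finset.HasAntidiagonal.mem_antidiagonal] at hp
    simp only [ne_eq, Prod.mk.injEq, not_and] at hne hp ⊢
    by_cases ha : M + 3 ≤ a
    · rw [hzp a ha]; simp
    · rw [hz b (by omega)]; simp
  · intro h
    exact absurd (by rw [Finset.HasAntidiagonal.mem_antidiagonal]; omega) h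
  · intro h
    exact absurd (by rw [Finset.HasAntidiagonal.mem_antidiagonal]; omega) h

include K hσ hX hM hy in
/-- The trace identity. -/
theorem trace_identity {θ : Λ} (hθ : Od σ θ) :
    θ * ((M + 1) • Psi1 M (X * X) (X * y - y * X) y - (4 * M + 9) • Psi2 M (X * X) y) = 0 := by
  have e1 := eq1 K hσ hX hy M hM
  have e2 := eq2 K hσ hX hy M hM
  have e3 := eq3 K hσ hX hy M hM hθ
  rw [Psi1_eq K hσ hX hy M hM, Psi2_eq K hσ hX hy M hM, eqQ K hσ hX hy M hM]
  set B := X * X with hB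
  set w := X * y - y * X with hw
  set a := mu M B y
  set b := rho M B y
  set s1 := sig1 M B w y
  set s2 := sig2 M B w y
  have hc : (2 * M + 4).choose (M + 3) * (M + 3) = (2 * M + 4).choose (M + 2) * (M + 2) := by
    have := Nat.choose_succ_right_eq (2 * M + 4) (M + 2)
    rw [show 2 * M + 4 - (M + 2) = M + 2 by omega] at this
    exact this
  set c := (2 * M + 4).choose (M + 2)
  set c' := (2 * M + 4).choose (M + 3)
  have hcK : (c' : K) * (M + 3) = c * (M + 2) := by exact_mod_cast hc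
  -- pull the sign out
  have h0 : θ * ((M + 1) • ((-1) ^ (M + 1) * ((2 * c) • (s1 - s2 - a + b))) -
      (4 * M + 9) • ((-1) ^ (M + 1) * (2 • (c • b - c' • a)))) =
      (-1) ^ (M + 1) * ((2 : K) • (θ * (((M + 1 : K) * c) • (s1 - s2 - a + b) -
        (4 * M + 9 : K) • ((c : K) • b - (c' : K) • a)))) := by
    have : ∀ (k : ℕ) (Z : Λ), θ * ((-1) ^ k * Z) = (-1) ^ k * (θ * Z) := by
      intro k Z
      induction k with
      | zero => simp
      | succ k ih => rw [pow_succ', neg_one_mul, neg_mul, mul_neg, ih]; noncomm_ring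
    rw [← mul_smul_comm, ← mul_smul_comm, ← mul_sub, this, ← mul_smul_comm]
    congr 2
    have f1 : (c : K) • b = c • b := Nat.cast_smul_eq_nsmul K c b
    have f2 : (c' : K) • a = c' • a := Nat.cast_smul_eq_nsmul K c' a
    rw [f1, f2]
    have f3 : (M + 1) • (2 * c) • (s1 - s2 - a + b) =
        ((2 : K) * ((M + 1 : K) * c)) • (s1 - s2 - a + b) := by
      rw [← mul_smul, ← Nat.cast_smul_eq_nsmul K]
      push_cast
      congr 1
      ring
    have f4 : (4 * M + 9) • 2 • (c • b - c' • a) =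
        ((2 : K) * (4 * M + 9 : K)) • (c • b - c' • a) := by
      rw [← mul_smul, ← Nat.cast_smul_eq_nsmul K]
      push_cast
      congr 1
      ring
    rw [f3, f4]
    module
  rw [h0]
  suffices h : θ * (((M + 1 : K) * c) • (s1 - s2 - a + b) -
        (4 * M + 9 : K) • ((c : K) • b - (c' : K) • a)) = 0 by
    rw [h, smul_zero, mul_zero]
  have e1' : (M : K) • a + (M + 3 : K) • b = 0 := by
    rw [← e1, ← Nat.cast_smul_eq_nsmul K, ← Nat.cast_smul_eq_nsmul K]
    push_cast
    rfl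
  have e2' : (M + 1 : K) • s1 + (M + 4 : K) • s2 = 0 := by
    rw [← e2, ← Nat.cast_smul_eq_nsmul K, ← Nat.cast_smul_eq_nsmul K]
    push_cast
    rfl
  have e3' : θ * (s1 + s2 + (3 : K) • (a + b)) = 0 := by
    rw [← e3, ← Nat.cast_smul_eq_nsmul K]
    push_cast
    rfl
  have hne : (3 * (M + 3) : K) ≠ 0 := by
    have : ((3 * (M + 3) : ℕ) : K) ≠ 0 := Nat.cast_ne_zero.2 (by positivity)
    simpa using this
  have key : (3 * (M + 3) : K) • (((M + 1 : K) * c) • (s1 - s2 - a + b) -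
        (4 * M + 9 : K) • ((c : K) • b - (c' : K) • a)) =
      ((c : K) * ((M + 1) * (M + 3) * (2 * M + 5))) • (s1 + s2 + (3 : K) • (a + b))
      - ((c : K) * (2 * (M + 1) * (M + 3))) • ((M + 1 : K) • s1 + (M + 4 : K) • s2)
      - ((c : K) * (3 * (2 * M ^ 2 + 10 * M + 13))) • ((M : K) • a + (M + 3 : K) • b) := by
    have hc2 : (3 * (M + 3) : K) • (4 * M + 9 : K) • (c' : K) • a =
        ((3 * (4 * M + 9) : K) * (c * (M + 2))) • a := by
      rw [← hcK]
      module
    rw [smul_sub, smul_sub (4 * M + 9 : K), smul_sub (3 * (M + 3) : K) ((4 * M + 9 : K) • _), hc2]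
    module
  refine (smul_eq_zero.1 ?_).resolve_left hne
  rw [← mul_smul_comm, key, e1', e2', smul_zero, smul_zero, sub_zero, sub_zero, mul_smul_comm,
    e3', smul_zero]

end

end Pool.Agent.Helper884.LieId
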