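import Mathlib
import Pool.Agent.Helper884.LieId.Main1

set_option autoImplicit false

/-!
The super polynomial `fsup` and its vanishing on matrices.
-/

namespace Pool.Agent.Helper884.LieId

open Matrix
open Finset.HasAntidiagonal (antidiagonal)

section general

variable {R R' : Type*} [Ring R] [Ring R']

/-- `D m = X m - τ(m) X`. -/
def Dop (τ : R →+* R) (X : R) : AddMonoid.End R where
  toFun m := X * m - τ m * X
  map_zero' := by simp
  map_add' a b := by rw [map_add]; noncomm_ring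

theorem Dop_apply (τ : R →+* R) (X m : R) : Dop τ X m = X * m - τ m * X := rfl

theorem Dop_pow_succ (τ : R →+* R) (X m : R) (a : ℕ) :
    (Dop τ X ^ (a + 1)) m = Dop τ X ((Dop τ X ^ a) m) := by rw [pow_succ']; rfl

theorem Dop_pow_zero (τ : R →+* R) (X m : R) : (Dop τ X ^ 0) m = m := by rw [pow_zero]; rfl

theorem Dop_pow_succ' (τ : R →+* R) (X m : R) (a : ℕ) :
    (Dop τ X ^ (a + 1)) m = (Dop τ X ^ a) (Dop τ X m) := by rw [pow_succ]; rfl

/-- The signs `(-1)^(a(a+1)/2)`. -/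
def eps : ℕ → ℤ
  | 0 => 1
  | (a + 1) => (-1) ^ (a + 1) * eps a

/-- The super Lie polynomial. -/
def fsup (τ : R →+* R) (M : ℕ) (X y : R) : R :=
  (∑ p ∈ antidiagonal (2 * M + 2), ((M + 1) * (2 * M + 4).choose (p.1 + 1)) •
    (eps (2 * p.1 + 1) • (Dop τ X ^ (2 * p.1 + 1))
        ((Dop τ X ^ (2 * p.2 + 1)) y * y - y * (Dop τ X ^ (2 * p.2 + 1)) y) +
      eps (2 * p.2 + 1) • (Dop τ X ^ (2 * p.2 + 1))
        ((Dop τ X ^ (2 * p.1 + 1)) y * y - y * (Dop τ X ^ (2 * p.1 + 1)) y) +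
      ((Dop τ X ^ (2 * p.1 + 1)) y * (Dop τ X ^ (2 * p.2 + 1)) y +
        (Dop τ X ^ (2 * p.2 + 1)) y * (Dop τ X ^ (2 * p.1 + 1)) y))) -
  (∑ p ∈ antidiagonal (2 * M + 3), ((4 * M + 9) * (2 * M + 4).choose (p.2 + 1)) •
    (eps (2 * p.1) • (Dop τ X ^ (2 * p.1))
        ((Dop τ X ^ (2 * p.2)) y * y - y * (Dop τ X ^ (2 * p.2)) y) -
      eps (2 * p.2) • (Dop τ X ^ (2 * p.2))
        ((Dop τ X ^ (2 * p.1)) y * y - y * (Dop τ X ^ (2 * p.1)) y) +
      ((Dop τ X ^ (2 * p.1)) y * (Dop τ X ^ (2 * p.2)) y -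
        (Dop τ X ^ (2 * p.2)) y * (Dop τ X ^ (2 * p.1)) y)))

theorem map_Dop_pow (Φ : R →+* R') (τ : R →+* R) (τ' : R' →+* R')
    (h : ∀ m, Φ (τ m) = τ' (Φ m)) (X m : R) (a : ℕ) :
    Φ ((Dop τ X ^ a) m) = (Dop τ' (Φ X) ^ a) (Φ m) := by
  induction a with
  | zero => rw [Dop_pow_zero, Dop_pow_zero]
  | succ a ih =>
    rw [Dop_pow_succ, Dop_pow_succ, ← ih, Dop_apply, Dop_apply, map_sub, map_mul, map_mul, h]

theorem map_fsup (Φ : R →+* R') (τ : R →+* R) (τ' : R' →+* R')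
    (h : ∀ m, Φ (τ m) = τ' (Φ m)) (M : ℕ) (X y : R) :
    Φ (fsup τ M X y) = fsup τ' M (Φ X) (Φ y) := by
  simp only [fsup, map_sub, map_sum, map_add, map_nsmul, map_zsmul, map_mul,
    map_Dop_pow Φ τ τ' h]

end general

section

variable {Λ : Type*} [Ring Λ] {σ : Λ →+* Λ}
variable {n : Type*} [Fintype n] [DecidableEq n]
variable (K : Type*) [Field K] [CharZero K] [Algebra K Λ] (hσ : ∀ w, σ (σ w) = w)
  {X : Matrix n n Λ} (hX : OdM σ X) {y : Matrix n n Λ} (hy : EvM σ y)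
  (M : ℕ) (hM : Fintype.card n = M + 2 + 1)

theorem map_ev (hy : EvM σ y) : σ.mapMatrix y = y := by
  ext i j; exact (hy i j).2

theorem map_od (hy : OdM σ y) : σ.mapMatrix y = -y := by
  ext i j; exact (hy i j).2

include hσ hX in
theorem Dop_Dop (m : Matrix n n Λ) :
    Dop σ.mapMatrix X (Dop σ.mapMatrix X m) = (X * X) * m - m * (X * X) := by
  have h1 : σ.mapMatrix (σ.mapMatrix m) = m := by
    ext i j; exact hσ _
  rw [Dop_apply, Dop_apply, map_sub, map_mul, map_mul, map_od hX, h1]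
  noncomm_ring

include hσ hX in
theorem Dop_pow_two_mul (m : Matrix n n Λ) (r : ℕ) :
    (Dop σ.mapMatrix X ^ (2 * r)) m = adp (X * X) r m := by
  induction r with
  | zero => rw [mul_zero, Dop_pow_zero]; rfl
  | succ r ih =>
    rw [show 2 * (r + 1) = 2 * r + 1 + 1 by ring, Dop_pow_succ, Dop_pow_succ, ih,
      Dop_Dop hσ hX]
    rfl

include hσ hX hy in
theorem Dop_pow_odd (r : ℕ) :
    (Dop σ.mapMatrix X ^ (2 * r + 1)) y = adp (X * X) r (X * y - y * X) := by
  rw [Dop_pow_succ', Dop_pow_two_mul hσ hX, Dop_apply, map_ev hy]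

include hX in
theorem Dop_ev (hy : EvM σ y) : OdM σ (Dop σ.mapMatrix X y) := by
  rw [Dop_apply, map_ev hy]
  exact (hX.mul_ev hy).sub (hy.mul_od hX)

include hσ hX in
theorem Dop_od (hy : OdM σ y) : EvM σ (Dop σ.mapMatrix X y) := by
  rw [Dop_apply, map_od hy, neg_mul, sub_neg_eq_add]
  intro i j
  exact (hX.mul hσ hy i j).add (hy.mul hσ hX i j)

include hσ hX hy in
theorem Dop_pow_parity (r : ℕ) : EvM σ ((Dop σ.mapMatrix X ^ (2 * r)) y) ∧
    OdM σ ((Dop σ.mapMatrix X ^ (2 * r + 1)) y) := by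
  induction r with
  | zero =>
    rw [mul_zero, zero_add, Dop_pow_zero, pow_one]
    exact ⟨hy, Dop_ev hX hy⟩
  | succ r ih =>
    have h1 : EvM σ ((Dop σ.mapMatrix X ^ (2 * (r + 1))) y) := by
      rw [show 2 * (r + 1) = 2 * r + 1 + 1 by ring, Dop_pow_succ]
      exact Dop_od hσ hX ih.2
    refine ⟨h1, ?_⟩
    rw [Dop_pow_succ]
    exact Dop_ev hX h1

include hX in
theorem trace_odd_comm (m : Matrix n n Λ) : trace (X * m) = trace (σ.mapMatrix m * X) := by
  simp only [Matrix.trace, Matrix.diag_apply, Matrix.mul_apply]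
  rw [Finset.sum_comm]
  refine Finset.sum_congr rfl fun _ _ => Finset.sum_congr rfl fun _ _ => ?_
  rw [(hX _ _).1]
  rfl

include hX in
theorem trace_Dop_mul (z g : Matrix n n Λ) :
    trace (Dop σ.mapMatrix X z * g) = - trace (σ.mapMatrix z * Dop σ.mapMatrix X g) := by
  rw [Dop_apply, Dop_apply, sub_mul, mul_sub, trace_sub, trace_sub, mul_assoc, trace_odd_comm hX,
    map_mul, neg_sub]
  simp only [mul_assoc]

include hσ hX in
theorem map_Dop (m : Matrix n n Λ) :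
    σ.mapMatrix (Dop σ.mapMatrix X m) = - Dop σ.mapMatrix X (σ.mapMatrix m) := by
  have h1 : σ.mapMatrix (σ.mapMatrix m) = m := by
    ext i j; exact hσ _
  rw [Dop_apply, Dop_apply, map_sub, map_mul, map_mul, map_od hX, h1]
  noncomm_ring

include hσ hX in
theorem map_Dop_pow_ev {z : Matrix n n Λ} (hz : EvM σ z) (a : ℕ) :
    σ.mapMatrix ((Dop σ.mapMatrix X ^ a) z) = ((-1 : ℤ) ^ a) • (Dop σ.mapMatrix X ^ a) z := by
  induction a with
  | zero => rw [Dop_pow_zero, map_ev hz, pow_zero, one_smul]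
  | succ a ih =>
    rw [Dop_pow_succ, map_Dop hσ hX, ih, map_zsmul, pow_succ, mul_neg_one, neg_smul]

include hσ hX in
theorem trace_Dop_pow_mul {z : Matrix n n Λ} (hz : EvM σ z) (a : ℕ) (g : Matrix n n Λ) :
    trace ((Dop σ.mapMatrix X ^ a) z * g) = eps a • trace (z * (Dop σ.mapMatrix X ^ a) g) := by
  induction a generalizing g with
  | zero => rw [Dop_pow_zero, Dop_pow_zero, eps, one_smul]
  | succ a ih =>
    rw [Dop_pow_succ, trace_Dop_mul hX, map_Dop_pow_ev hσ hX hz, smul_mul_assoc, trace_smul, ih,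
      Dop_pow_succ', eps, ← neg_smul, ← mul_smul]
    congr 1
    rw [pow_succ]
    ring

/-- The trilinear form. -/
def WW (σ : Λ →+* Λ) (M : ℕ) (X p q r : Matrix n n Λ) : Λ :=
  (∑ P ∈ antidiagonal (2 * M + 2), ((M + 1) * (2 * M + 4).choose (P.1 + 1)) •
    trace (((Dop σ.mapMatrix X ^ (2 * P.1 + 1)) p * (Dop σ.mapMatrix X ^ (2 * P.2 + 1)) q +
        (Dop σ.mapMatrix X ^ (2 * P.2 + 1)) q * (Dop σ.mapMatrix X ^ (2 * P.1 + 1)) p) * r)) -
  (∑ P ∈ antidiagonal (2 * M + 3), ((4 * M + 9) * (2 * M + 4).choose (P.2 + 1)) •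
    trace (((Dop σ.mapMatrix X ^ (2 * P.1)) p * (Dop σ.mapMatrix X ^ (2 * P.2)) q -
        (Dop σ.mapMatrix X ^ (2 * P.2)) q * (Dop σ.mapMatrix X ^ (2 * P.1)) p) * r))

include hσ hX hy in
theorem WW_diag : WW σ M X y y y =
    (M + 1) • Psi1 M (X * X) (X * y - y * X) y - (4 * M + 9) • Psi2 M (X * X) y := by
  simp only [WW, Psi1, Psi2, Finset.smul_sum, mul_smul, Dop_pow_two_mul hσ hX,
    Dop_pow_odd hσ hX hy]

theorem WW_add1 (σ : Λ →+* Λ) (X p p' q r : Matrix n n Λ) :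
    WW σ M X (p + p') q r = WW σ M X p q r + WW σ M X p' q r := by
  simp only [WW, map_add, add_mul, mul_add, sub_mul, mul_sub, trace_add, trace_sub, smul_add,
    smul_sub, Finset.sum_add_distrib, Finset.sum_sub_distrib]
  abel

theorem WW_add2 (σ : Λ →+* Λ) (X p q q' r : Matrix n n Λ) :
    WW σ M X p (q + q') r = WW σ M X p q r + WW σ M X p q' r := by
  simp only [WW, map_add, add_mul, mul_add, sub_mul, mul_sub, trace_add, trace_sub, smul_add,
    smul_sub, Finset.sum_add_distrib, Finset.sum_sub_distrib]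
  abel

theorem WW_add3 (σ : Λ →+* Λ) (X p q r r' : Matrix n n Λ) :
    WW σ M X p q (r + r') = WW σ M X p q r + WW σ M X p q r' := by
  simp only [WW, map_add, add_mul, mul_add, sub_mul, mul_sub, trace_add, trace_sub, smul_add,
    smul_sub, Finset.sum_add_distrib, Finset.sum_sub_distrib]
  abel

theorem WW_neg1 (σ : Λ →+* Λ) (X p q r : Matrix n n Λ) :
    WW σ M X (-p) q r = - WW σ M X p q r := by
  have h := WW_add1 M σ X p (-p) q r
  have h0 := WW_add1 M σ X 0 0 q r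
  rw [add_neg_cancel] at h
  rw [add_zero, left_eq_add] at h0
  rw [h0] at h
  exact eq_neg_of_add_eq_zero_right h.symm

theorem WW_neg2 (σ : Λ →+* Λ) (X p q r : Matrix n n Λ) :
    WW σ M X p (-q) r = - WW σ M X p q r := by
  have h := WW_add2 M σ X p q (-q) r
  have h0 := WW_add2 M σ X p 0 0 r
  rw [add_neg_cancel] at h
  rw [add_zero, left_eq_add] at h0
  rw [h0] at h
  exact eq_neg_of_add_eq_zero_right h.symm

theorem WW_neg3 (σ : Λ →+* Λ) (X p q r : Matrix n n Λ) :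
    WW σ M X p q (-r) = - WW σ M X p q r := by
  have h := WW_add3 M σ X p q r (-r)
  have h0 := WW_add3 M σ X p q 0 0
  rw [add_neg_cancel] at h
  rw [add_zero, left_eq_add] at h0
  rw [h0] at h
  exact eq_neg_of_add_eq_zero_right h.symm

include K hσ hX hM hy in
theorem WW_polar {θ : Λ} (hθ : Od σ θ) {z : Matrix n n Λ} (hz : EvM σ z) :
    θ * (WW σ M X z y y + WW σ M X y z y + WW σ M X y y z) = 0 := by
  have h : ∀ y', EvM σ y' → θ * WW σ M X y' y' y' = 0 := by
    intro y' hy'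
    rw [WW_diag hσ hX hy' M]
    exact trace_identity K hσ hX hy' M hM hθ
  have hadd : EvM σ (y + z) := fun i j => (hy i j).add (hz i j)
  have hnz : EvM σ (-z) := fun i j => (hz i j).neg
  have hsub : EvM σ (y + -z) := fun i j => (hy i j).add (hnz i j)
  have h1 := h _ hadd
  have h2 := h _ hsub
  have h3 := h _ hz
  simp only [WW_add1, WW_add2, WW_add3, WW_neg1, WW_neg2, WW_neg3] at h1 h2
  have h4 : (2 : K) • (θ * (WW σ M X z y y + WW σ M X y z y + WW σ M X y y z)) = 0 := by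
    have : (2 : K) • (θ * (WW σ M X z y y + WW σ M X y z y + WW σ M X y y z)) =
      (θ * (WW σ M X z y y + WW σ M X y z y + WW σ M X y y z)) +
      (θ * (WW σ M X z y y + WW σ M X y z y + WW σ M X y y z)) := two_smul _ _
    rw [this, ← sub_eq_zero.2 (h1.trans h2.symm)]
    have h5 : (0 : Λ) = (θ * WW σ M X z z z) + (θ * WW σ M X z z z) := by rw [h3]; simp
    rw [← add_zero (θ * _ + θ * _), h5]
    noncomm_ring
  exact (smul_eq_zero.1 h4).resolve_left two_ne_zero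

include hσ hX hy in
/-- Moving a power of `D` around, odd case. -/
theorem trace_move_odd {z : Matrix n n Λ} (hz : EvM σ z) (a b : ℕ) :
    trace (((Dop σ.mapMatrix X ^ (2 * a + 1)) z * (Dop σ.mapMatrix X ^ (2 * b + 1)) y +
        (Dop σ.mapMatrix X ^ (2 * b + 1)) y * (Dop σ.mapMatrix X ^ (2 * a + 1)) z) * y) =
      trace (z * (eps (2 * a + 1) • (Dop σ.mapMatrix X ^ (2 * a + 1))
        ((Dop σ.mapMatrix X ^ (2 * b + 1)) y * y - y * (Dop σ.mapMatrix X ^ (2 * b + 1)) y))) := by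
  rw [mul_smul_comm, trace_smul, ← trace_Dop_pow_mul hσ hX hz, add_mul, trace_add]
  have hu := (Dop_pow_parity hσ hX hy b).2
  have hv := (Dop_pow_parity hσ hX hz a).2
  rw [mul_assoc ((Dop σ.mapMatrix X ^ (2 * b + 1)) y), hu.trace_comm (hv.mul_ev hy), mul_sub,
    trace_sub]
  simp only [mul_assoc]
  abel

include hσ hX hy in
/-- Moving a power of `D` around, even case. -/
theorem trace_move_ev {z : Matrix n n Λ} (hz : EvM σ z) (a b : ℕ) :
    trace (((Dop σ.mapMatrix X ^ (2 * a)) z * (Dop σ.mapMatrix X ^ (2 * b)) y -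
        (Dop σ.mapMatrix X ^ (2 * b)) y * (Dop σ.mapMatrix X ^ (2 * a)) z) * y) =
      trace (z * (eps (2 * a) • (Dop σ.mapMatrix X ^ (2 * a))
        ((Dop σ.mapMatrix X ^ (2 * b)) y * y - y * (Dop σ.mapMatrix X ^ (2 * b)) y))) := by
  rw [mul_smul_comm, trace_smul, ← trace_Dop_pow_mul hσ hX hz, sub_mul, trace_sub]
  have hu := (Dop_pow_parity hσ hX hy b).1
  rw [mul_assoc ((Dop σ.mapMatrix X ^ (2 * b)) y), hu.trace_comm, mul_sub,
    trace_sub]
  simp only [mul_assoc]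

include hσ hX hy in
theorem WW_eq_fsup {z : Matrix n n Λ} (hz : EvM σ z) :
    WW σ M X z y y + WW σ M X y z y + WW σ M X y y z =
      trace (z * fsup σ.mapMatrix M X y) := by
  have h1 := fun a b => trace_move_odd hσ hX hy hz a b
  have h2 := fun a b => trace_move_ev hσ hX hy hz a b
  have h3 : WW σ M X z y y =
      (∑ P ∈ antidiagonal (2 * M + 2), ((M + 1) * (2 * M + 4).choose (P.1 + 1)) •
        trace (z * (eps (2 * P.1 + 1) • (Dop σ.mapMatrix X ^ (2 * P.1 + 1))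
        ((Dop σ.mapMatrix X ^ (2 * P.2 + 1)) y * y -
          y * (Dop σ.mapMatrix X ^ (2 * P.2 + 1)) y)))) -
      (∑ P ∈ antidiagonal (2 * M + 3), ((4 * M + 9) * (2 * M + 4).choose (P.2 + 1)) •
        trace (z * (eps (2 * P.1) • (Dop σ.mapMatrix X ^ (2 * P.1))
        ((Dop σ.mapMatrix X ^ (2 * P.2)) y * y - y * (Dop σ.mapMatrix X ^ (2 * P.2)) y)))) := by
    simp only [WW, h1, h2]
  have h4 : WW σ M X y z y =
      (∑ P ∈ antidiagonal (2 * M + 2), ((M + 1) * (2 * M + 4).choose (P.1 + 1)) •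
        trace (z * (eps (2 * P.2 + 1) • (Dop σ.mapMatrix X ^ (2 * P.2 + 1))
        ((Dop σ.mapMatrix X ^ (2 * P.1 + 1)) y * y -
          y * (Dop σ.mapMatrix X ^ (2 * P.1 + 1)) y)))) -
      (∑ P ∈ antidiagonal (2 * M + 3), ((4 * M + 9) * (2 * M + 4).choose (P.2 + 1)) •
        - trace (z * (eps (2 * P.2) • (Dop σ.mapMatrix X ^ (2 * P.2))
        ((Dop σ.mapMatrix X ^ (2 * P.1)) y * y - y * (Dop σ.mapMatrix X ^ (2 * P.1)) y)))) := by
    simp only [WW, ← h1, ← h2]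
    congr 1
    · exact Finset.sum_congr rfl fun P _ => by rw [add_comm ((Dop σ.mapMatrix X ^ _) y * _)]
    · refine Finset.sum_congr rfl fun P _ => ?_
      rw [← trace_neg, ← neg_mul, neg_sub]
  have h5 : WW σ M X y y z =
      (∑ P ∈ antidiagonal (2 * M + 2), ((M + 1) * (2 * M + 4).choose (P.1 + 1)) •
        trace (z * ((Dop σ.mapMatrix X ^ (2 * P.1 + 1)) y * (Dop σ.mapMatrix X ^ (2 * P.2 + 1)) y +
        (Dop σ.mapMatrix X ^ (2 * P.2 + 1)) y * (Dop σ.mapMatrix X ^ (2 * P.1 + 1)) y))) -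
      (∑ P ∈ antidiagonal (2 * M + 3), ((4 * M + 9) * (2 * M + 4).choose (P.2 + 1)) •
        trace (z * ((Dop σ.mapMatrix X ^ (2 * P.1)) y * (Dop σ.mapMatrix X ^ (2 * P.2)) y -
        (Dop σ.mapMatrix X ^ (2 * P.2)) y * (Dop σ.mapMatrix X ^ (2 * P.1)) y))) := by
    simp only [WW]
    congr 1 <;> exact Finset.sum_congr rfl fun P _ => by rw [hz.trace_comm]
  rw [h3, h4, h5, fsup, mul_sub, trace_sub, Finset.mul_sum, Finset.mul_sum, trace_sum, trace_sum]
  simp only [mul_smul_comm, trace_smul, mul_add, mul_sub, trace_add, trace_sub, smul_add,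
    smul_sub, Finset.sum_add_distrib, Finset.sum_sub_distrib, smul_neg, Finset.sum_neg_distrib]
  abel

include K hσ hX hM hy in
/-- The super polynomial vanishes after multiplication by an odd scalar. -/
theorem fsup_vanish {θ : Λ} (hθ : Od σ θ) (i j : n) :
    θ * fsup σ.mapMatrix M X y i j = 0 := by
  have hz : EvM σ (Matrix.single j i (1 : Λ)) := by
    intro a b
    rw [Matrix.single_apply]
    split_ifs
    exacts [Ev.one, Ev.zero]
  have h := WW_polar K hσ hX hy M hM hθ hz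
  rw [WW_eq_fsup hσ hX hy M hz] at h
  rw [← h]
  congr 1
  simp [Matrix.trace, Matrix.mul_apply, Matrix.single_apply, ite_and]

end

end Pool.Agent.Helper884.LieId
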