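import Mathlib
import Pool.Agent.Helper884.LieId.Fsup
import Pool.Agent.Helper884.LieId.Defs

set_option autoImplicit false

/-!
The Lie polynomial extracted from the super polynomial.
-/

namespace Pool.Agent.Helper884.LieId

open Matrix TensorProduct
open Finset.HasAntidiagonal (antidiagonal)

attribute [local instance 100] LieRing.ofAssociativeRing

universe u

section

variable {K : Type*} [Field K] {Λ : Type*} [Ring Λ] [Algebra K Λ] (σ : Λ →ₐ[K] Λ)

/-- The grading automorphism of `Λ ⊗ F`. -/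
noncomputable def tauT : (Λ ⊗[K] FreeAlgebra K ℕ) →+* (Λ ⊗[K] FreeAlgebra K ℕ) :=
  (Algebra.TensorProduct.map σ (AlgHom.id K (FreeAlgebra K ℕ))).toRingHom

theorem tauT_tmul (c : Λ) (l : FreeAlgebra K ℕ) : tauT σ (c ⊗ₜ l) = σ c ⊗ₜ l :=
  Algebra.TensorProduct.map_tmul _ _ _ _

/-- The functional `c ⊗ l ↦ π(c) l`. -/
noncomputable def PP (π : Λ →ₗ[K] K) : (Λ ⊗[K] FreeAlgebra K ℕ) →ₗ[K] FreeAlgebra K ℕ :=
  (TensorProduct.lid K (FreeAlgebra K ℕ)).toLinearMap ∘ₗ (LinearMap.rTensor (FreeAlgebra K ℕ) π)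

theorem PP_tmul (π : Λ →ₗ[K] K) (c : Λ) (l : FreeAlgebra K ℕ) : PP π (c ⊗ₜ l) = π c • l := by
  simp [PP]

variable {n : Type*} [Fintype n] [DecidableEq n]

theorem scalar_comm (c : Λ) (N : Matrix n n K) :
    Matrix.scalar n c * N.map (algebraMap K Λ) = N.map (algebraMap K Λ) * Matrix.scalar n c := by
  ext i j
  rw [Matrix.scalar_apply, Matrix.diagonal_mul, Matrix.mul_diagonal]
  exact (Algebra.commutes _ c).symm

theorem scalar_commute (a : ℕ → Matrix n n K) (x : Λ) (y : FreeAlgebra K ℕ) :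
    Commute (Matrix.scalarAlgHom n K x)
      (((Algebra.ofId K Λ).mapMatrix.comp (FreeAlgebra.lift K a)) y) :=
  scalar_comm x (FreeAlgebra.lift K a y)

/-- Evaluation of the free generators at matrices. -/
noncomputable def evT (a : ℕ → Matrix n n K) : (Λ ⊗[K] FreeAlgebra K ℕ) →ₐ[K] Matrix n n Λ :=
  Algebra.TensorProduct.lift (Matrix.scalarAlgHom n K)
    ((Algebra.ofId K Λ).mapMatrix.comp (FreeAlgebra.lift K a)) (scalar_commute a)

theorem evT_tmul (a : ℕ → Matrix n n K) (c : Λ) (l : FreeAlgebra K ℕ) (i j : n) :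
    evT a (c ⊗ₜ l) i j = c * algebraMap K Λ (FreeAlgebra.lift K a l i j) := by
  rw [evT, Algebra.TensorProduct.lift_tmul]
  change (Matrix.scalar n c * ((FreeAlgebra.lift K a l).map (algebraMap K Λ))) i j = _
  rw [Matrix.scalar_apply, Matrix.diagonal_mul]
  rfl

theorem evT_tauT (a : ℕ → Matrix n n K) (t : Λ ⊗[K] FreeAlgebra K ℕ) :
    evT a (tauT σ t) = (σ : Λ →+* Λ).mapMatrix (evT a t) := by
  induction t with
  | zero => simp
  | tmul c l =>
    ext i j
    rw [tauT_tmul, evT_tmul]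
    change _ = σ _
    rw [evT_tmul, map_mul, AlgHom.commutes]
  | add x y hx hy => rw [map_add, map_add, map_add, map_add, hx, hy]

theorem lift_PP (π : Λ →ₗ[K] K) (a : ℕ → Matrix n n K) (t : Λ ⊗[K] FreeAlgebra K ℕ) (i j : n) :
    FreeAlgebra.lift K a (PP π t) i j = π (evT a t i j) := by
  induction t with
  | zero => simp
  | tmul c l =>
    rw [PP_tmul, evT_tmul, map_smul, Matrix.smul_apply, ← Algebra.commutes, ← Algebra.smul_def,
      map_smul, smul_eq_mul, smul_eq_mul, mul_comm]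
  | add x y hx hy => rw [map_add, map_add, map_add, Matrix.add_apply, Matrix.add_apply, map_add,
      hx, hy]

/-! ### Lie elements -/

/-- The canonical map from the free Lie algebra to the free associative algebra. -/
noncomputable def toF (K : Type u) [Field K] : FreeLieAlgebra K ℕ →ₗ⁅K⁆ FreeAlgebra K ℕ :=
  FreeLieAlgebra.lift K (FreeAlgebra.ι K)

/-- Lie elements of degree `d`. -/
noncomputable def LL (K : Type u) [Field K] (d : ℕ) : Submodule K (FreeAlgebra K ℕ) :=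
  (Homog K d).map (toF K : FreeLieAlgebra K ℕ →ₗ[K] FreeAlgebra K ℕ)

theorem Homog_lie {d e : ℕ} {x y : FreeLieAlgebra K ℕ} (hx : x ∈ Homog K d) (hy : y ∈ Homog K e) :
    ⁅x, y⁆ ∈ Homog K (d + e) := by
  induction hx, hy using Submodule.span_induction₂ with
  | mem_mem x y hx hy => exact Submodule.subset_span (LieMono.lie hx hy)
  | zero_left y hy => rw [zero_lie]; exact Submodule.zero_mem _
  | zero_right x hx => rw [lie_zero]; exact Submodule.zero_mem _
  | add_left x y z hx hy hz h1 h2 => rw [add_lie]; exact Submodule.add_mem _ h1 h2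
  | add_right x y z hx hy hz h1 h2 => rw [lie_add]; exact Submodule.add_mem _ h1 h2
  | smul_left r x y hx hy h => rw [smul_lie]; exact Submodule.smul_mem _ _ h
  | smul_right r x y hx hy h => rw [lie_smul]; exact Submodule.smul_mem _ _ h

theorem LL_bracket {d e : ℕ} {l m : FreeAlgebra K ℕ} (hl : l ∈ LL K d) (hm : m ∈ LL K e) :
    l * m - m * l ∈ LL K (d + e) := by
  obtain ⟨x, hx, rfl⟩ := hl
  obtain ⟨y, hy, rfl⟩ := hm
  exact ⟨⁅x, y⁆, Homog_lie hx hy, (toF K).map_lie x y⟩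

theorem ι_mem_LL (i : ℕ) : FreeAlgebra.ι K i ∈ LL K 1 :=
  ⟨FreeLieAlgebra.of K i, Submodule.subset_span (LieMono.of i), FreeLieAlgebra.lift_of_apply _ _⟩

/-- Even tensors. -/
def SEv (d : ℕ) : Submodule K (Λ ⊗[K] FreeAlgebra K ℕ) :=
  Submodule.span K {t | ∃ c l, Ev (σ : Λ →+* Λ) c ∧ l ∈ LL K d ∧ c ⊗ₜ l = t}

/-- Odd tensors. -/
def SOd (d : ℕ) : Submodule K (Λ ⊗[K] FreeAlgebra K ℕ) :=
  Submodule.span K {t | ∃ c l, Od (σ : Λ →+* Λ) c ∧ l ∈ LL K d ∧ c ⊗ₜ l = t}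

variable {σ}

theorem SEv_bracket {d e : ℕ} {u v : Λ ⊗[K] FreeAlgebra K ℕ} (hu : u ∈ SEv σ d)
    (hv : v ∈ SEv σ e) : u * v - v * u ∈ SEv σ (d + e) := by
  induction hu, hv using Submodule.span_induction₂ with
  | mem_mem x y hx hy =>
    obtain ⟨c, l, hc, hl, rfl⟩ := hx
    obtain ⟨c', l', hc', hl', rfl⟩ := hy
    rw [Algebra.TensorProduct.tmul_mul_tmul, Algebra.TensorProduct.tmul_mul_tmul, hc'.1 c,
      ← tmul_sub]
    exact Submodule.subset_span ⟨_, _, hc.mul hc', LL_bracket hl hl', rfl⟩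
  | zero_left y hy => simp
  | zero_right x hx => simp
  | add_left x y z hx hy hz h1 h2 =>
    have : (x + y) * z - z * (x + y) = (x * z - z * x) + (y * z - z * y) := by noncomm_ring
    rw [this]; exact Submodule.add_mem _ h1 h2
  | add_right x y z hx hy hz h1 h2 =>
    have : x * (y + z) - (y + z) * x = (x * y - y * x) + (x * z - z * x) := by noncomm_ring
    rw [this]; exact Submodule.add_mem _ h1 h2
  | smul_left r x y hx hy h =>
    rw [smul_mul_assoc, mul_smul_comm, ← smul_sub]; exact Submodule.smul_mem _ _ h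
  | smul_right r x y hx hy h =>
    rw [smul_mul_assoc, mul_smul_comm, ← smul_sub]; exact Submodule.smul_mem _ _ h

theorem SOd_bracket {d e : ℕ} {u v : Λ ⊗[K] FreeAlgebra K ℕ} (hu : u ∈ SOd σ d)
    (hv : v ∈ SEv σ e) : u * v - v * u ∈ SOd σ (d + e) := by
  induction hu, hv using Submodule.span_induction₂ with
  | mem_mem x y hx hy =>
    obtain ⟨c, l, hc, hl, rfl⟩ := hx
    obtain ⟨c', l', hc', hl', rfl⟩ := hy
    rw [Algebra.TensorProduct.tmul_mul_tmul, Algebra.TensorProduct.tmul_mul_tmul, hc'.1 c,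
      ← tmul_sub]
    exact Submodule.subset_span ⟨_, _, hc.mul_ev hc', LL_bracket hl hl', rfl⟩
  | zero_left y hy => simp
  | zero_right x hx => simp
  | add_left x y z hx hy hz h1 h2 =>
    have : (x + y) * z - z * (x + y) = (x * z - z * x) + (y * z - z * y) := by noncomm_ring
    rw [this]; exact Submodule.add_mem _ h1 h2
  | add_right x y z hx hy hz h1 h2 =>
    have : x * (y + z) - (y + z) * x = (x * y - y * x) + (x * z - z * x) := by noncomm_ring
    rw [this]; exact Submodule.add_mem _ h1 h2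
  | smul_left r x y hx hy h =>
    rw [smul_mul_assoc, mul_smul_comm, ← smul_sub]; exact Submodule.smul_mem _ _ h
  | smul_right r x y hx hy h =>
    rw [smul_mul_assoc, mul_smul_comm, ← smul_sub]; exact Submodule.smul_mem _ _ h

theorem SOd_antibracket (hσ : ∀ w, σ (σ w) = w) {d e : ℕ} {u v : Λ ⊗[K] FreeAlgebra K ℕ}
    (hu : u ∈ SOd σ d) (hv : v ∈ SOd σ e) : u * v + v * u ∈ SEv σ (d + e) := by
  induction hu, hv using Submodule.span_induction₂ with
  | mem_mem x y hx hy =>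
    obtain ⟨c, l, hc, hl, rfl⟩ := hx
    obtain ⟨c', l', hc', hl', rfl⟩ := hy
    have h : c' * c = - (c * c') := by
      rw [hc.1 c', hc'.2, neg_mul, neg_neg]
    rw [Algebra.TensorProduct.tmul_mul_tmul, Algebra.TensorProduct.tmul_mul_tmul, h,
      neg_tmul, ← sub_eq_add_neg, ← tmul_sub]
    exact Submodule.subset_span ⟨_, _, hc.mul hσ hc', LL_bracket hl hl', rfl⟩
  | zero_left y hy => simp
  | zero_right x hx => simp
  | add_left x y z hx hy hz h1 h2 =>
    have : (x + y) * z + z * (x + y) = (x * z + z * x) + (y * z + z * y) := by noncomm_ring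
    rw [this]; exact Submodule.add_mem _ h1 h2
  | add_right x y z hx hy hz h1 h2 =>
    have : x * (y + z) + (y + z) * x = (x * y + y * x) + (x * z + z * x) := by noncomm_ring
    rw [this]; exact Submodule.add_mem _ h1 h2
  | smul_left r x y hx hy h =>
    rw [smul_mul_assoc, mul_smul_comm, ← smul_add]; exact Submodule.smul_mem _ _ h
  | smul_right r x y hx hy h =>
    rw [smul_mul_assoc, mul_smul_comm, ← smul_add]; exact Submodule.smul_mem _ _ h

/-- The odd generic element. -/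
def XT (K : Type*) [Field K] {Λ : Type*} [Ring Λ] [Algebra K Λ] (θ : ℕ → Λ) (k : ℕ) :
    Λ ⊗[K] FreeAlgebra K ℕ := ∑ i ∈ Finset.range k, θ i ⊗ₜ FreeAlgebra.ι K i

variable {θ : ℕ → Λ} (hθ : ∀ i, Od (σ : Λ →+* Λ) (θ i)) (k : ℕ)

include hθ in
theorem Dop_tmul (c : Λ) (l : FreeAlgebra K ℕ) : Dop (tauT σ) (XT K θ k) (c ⊗ₜ l) =
    ∑ i ∈ Finset.range k, (θ i * c) ⊗ₜ (FreeAlgebra.ι K i * l - l * FreeAlgebra.ι K i) := by
  rw [Dop_apply, tauT_tmul, XT, Finset.sum_mul, Finset.mul_sum, ← Finset.sum_sub_distrib]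
  refine Finset.sum_congr rfl fun i _ => ?_
  rw [Algebra.TensorProduct.tmul_mul_tmul, Algebra.TensorProduct.tmul_mul_tmul, tmul_sub]
  congr 2
  exact ((hθ i).1 c).symm

theorem Dop_smul (r : K) (t : Λ ⊗[K] FreeAlgebra K ℕ) (X : Λ ⊗[K] FreeAlgebra K ℕ) :
    Dop (tauT σ) X (r • t) = r • Dop (tauT σ) X t := by
  rw [Dop_apply, Dop_apply]
  have : tauT σ (r • t) = r • tauT σ t := by
    rw [tauT]
    exact map_smul (Algebra.TensorProduct.map σ (AlgHom.id K (FreeAlgebra K ℕ))) r t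
  rw [this, smul_mul_assoc, mul_smul_comm, smul_sub]

include hθ in
theorem Dop_SEv {d : ℕ} {t : Λ ⊗[K] FreeAlgebra K ℕ} (ht : t ∈ SEv σ d) :
    Dop (tauT σ) (XT K θ k) t ∈ SOd σ (d + 1) := by
  induction ht using Submodule.span_induction with
  | mem x hx =>
    obtain ⟨c, l, hc, hl, rfl⟩ := hx
    rw [Dop_tmul hθ]
    refine Submodule.sum_mem _ fun i _ => Submodule.subset_span ⟨_, _, (hθ i).mul_ev hc, ?_, rfl⟩
    rw [add_comm]
    exact LL_bracket (ι_mem_LL i) hl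
  | zero => rw [map_zero]; exact Submodule.zero_mem _
  | add x y _ _ hx hy => rw [map_add]; exact Submodule.add_mem _ hx hy
  | smul r x _ hx => rw [Dop_smul]; exact Submodule.smul_mem _ _ hx

include hθ in
theorem Dop_SOd (hσ : ∀ w, σ (σ w) = w) {d : ℕ} {t : Λ ⊗[K] FreeAlgebra K ℕ} (ht : t ∈ SOd σ d) :
    Dop (tauT σ) (XT K θ k) t ∈ SEv σ (d + 1) := by
  induction ht using Submodule.span_induction with
  | mem x hx =>
    obtain ⟨c, l, hc, hl, rfl⟩ := hx
    rw [Dop_tmul hθ]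
    refine Submodule.sum_mem _ fun i _ => Submodule.subset_span ⟨_, _, (hθ i).mul hσ hc, ?_, rfl⟩
    rw [add_comm]
    exact LL_bracket (ι_mem_LL i) hl
  | zero => rw [map_zero]; exact Submodule.zero_mem _
  | add x y _ _ hx hy => rw [map_add]; exact Submodule.add_mem _ hx hy
  | smul r x _ hx => rw [Dop_smul]; exact Submodule.smul_mem _ _ hx

include hθ in
theorem Dop_pow_even_SEv (hσ : ∀ w, σ (σ w) = w) {d : ℕ} {t : Λ ⊗[K] FreeAlgebra K ℕ}
    (ht : t ∈ SEv σ d) (r : ℕ) : (Dop (tauT σ) (XT K θ k) ^ (2 * r)) t ∈ SEv σ (d + 2 * r) := by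
  induction r with
  | zero => rw [mul_zero, Dop_pow_zero]; exact ht
  | succ r ih =>
    rw [show 2 * (r + 1) = 2 * r + 1 + 1 by ring, Dop_pow_succ, Dop_pow_succ]
    exact Dop_SOd hθ k hσ (Dop_SEv hθ k ih)

include hθ in
theorem Dop_pow_even_SOd (hσ : ∀ w, σ (σ w) = w) {d : ℕ} {t : Λ ⊗[K] FreeAlgebra K ℕ}
    (ht : t ∈ SOd σ d) (r : ℕ) : (Dop (tauT σ) (XT K θ k) ^ (2 * r)) t ∈ SOd σ (d + 2 * r) := by
  induction r with
  | zero => rw [mul_zero, Dop_pow_zero]; exact ht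
  | succ r ih =>
    rw [show 2 * (r + 1) = 2 * r + 1 + 1 by ring, Dop_pow_succ, Dop_pow_succ]
    exact Dop_SEv hθ k (Dop_SOd hθ k hσ ih)

include hθ in
theorem Dop_pow_odd_SEv (hσ : ∀ w, σ (σ w) = w) {d : ℕ} {t : Λ ⊗[K] FreeAlgebra K ℕ}
    (ht : t ∈ SEv σ d) (r : ℕ) :
    (Dop (tauT σ) (XT K θ k) ^ (2 * r + 1)) t ∈ SOd σ (d + (2 * r + 1)) := by
  rw [Dop_pow_succ]
  exact Dop_SEv hθ k (Dop_pow_even_SEv hθ k hσ ht r)

include hθ in
theorem Dop_pow_odd_SOd (hσ : ∀ w, σ (σ w) = w) {d : ℕ} {t : Λ ⊗[K] FreeAlgebra K ℕ}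
    (ht : t ∈ SOd σ d) (r : ℕ) :
    (Dop (tauT σ) (XT K θ k) ^ (2 * r + 1)) t ∈ SEv σ (d + (2 * r + 1)) := by
  rw [Dop_pow_succ]
  exact Dop_SOd hθ k hσ (Dop_pow_even_SOd hθ k hσ ht r)

theorem SEv_cast {d e : ℕ} (h : d = e) {t : Λ ⊗[K] FreeAlgebra K ℕ} (ht : t ∈ SEv σ d) :
    t ∈ SEv σ e := h ▸ ht

include hθ in
theorem fsup_mem (hσ : ∀ w, σ (σ w) = w) (M : ℕ) :
    fsup (tauT σ) M (XT K θ k) (1 ⊗ₜ FreeAlgebra.ι K k) ∈ SEv σ (4 * M + 8) := by
  have hy : (1 : Λ) ⊗ₜ[K] FreeAlgebra.ι K k ∈ SEv σ 1 :=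
    Submodule.subset_span ⟨_, _, Ev.one, ι_mem_LL k, rfl⟩
  set y : Λ ⊗[K] FreeAlgebra K ℕ := (1 : Λ) ⊗ₜ[K] FreeAlgebra.ι K k
  have hns : ∀ (c : ℕ) (t : Λ ⊗[K] FreeAlgebra K ℕ) (d : ℕ), t ∈ SEv σ d → c • t ∈ SEv σ d :=
    fun c t d ht => nsmul_mem ht c
  have hzs : ∀ (c : ℤ) (t : Λ ⊗[K] FreeAlgebra K ℕ) (d : ℕ), t ∈ SEv σ d → c • t ∈ SEv σ d :=
    fun c t d ht => zsmul_mem ht c
  have hE := fun r => Dop_pow_even_SEv hθ k hσ hy r
  have hO := fun r => Dop_pow_odd_SEv hθ k hσ hy r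
  rw [fsup]
  refine Submodule.sub_mem _ (Submodule.sum_mem _ fun p hp => hns _ _ _ ?_)
    (Submodule.sum_mem _ fun p hp => hns _ _ _ ?_)
  · rw [Finset.HasAntidiagonal.mem_antidiagonal] at hp
    refine Submodule.add_mem _ (Submodule.add_mem _ (hzs _ _ _ ?_) (hzs _ _ _ ?_)) ?_
    · exact SEv_cast (by omega) (Dop_pow_odd_SOd hθ k hσ (SOd_bracket (hO p.2) hy) p.1)
    · exact SEv_cast (by omega) (Dop_pow_odd_SOd hθ k hσ (SOd_bracket (hO p.1) hy) p.2)
    · exact SEv_cast (by omega) (SOd_antibracket hσ (hO p.1) (hO p.2))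
  · rw [Finset.HasAntidiagonal.mem_antidiagonal] at hp
    refine Submodule.add_mem _ (Submodule.sub_mem _ (hzs _ _ _ ?_) (hzs _ _ _ ?_)) ?_
    · exact SEv_cast (by omega) (Dop_pow_even_SEv hθ k hσ (SEv_bracket (hE p.2) hy) p.1)
    · exact SEv_cast (by omega) (Dop_pow_even_SEv hθ k hσ (SEv_bracket (hE p.1) hy) p.2)
    · exact SEv_cast (by omega) (SEv_bracket (hE p.1) (hE p.2))

theorem PP_mem (π : Λ →ₗ[K] K) {d : ℕ} {t : Λ ⊗[K] FreeAlgebra K ℕ} (ht : t ∈ SEv σ d) :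
    PP π t ∈ LL K d := by
  induction ht using Submodule.span_induction with
  | mem x hx =>
    obtain ⟨c, l, hc, hl, rfl⟩ := hx
    rw [PP_tmul]
    exact Submodule.smul_mem _ _ hl
  | zero => rw [map_zero]; exact Submodule.zero_mem _
  | add x y _ _ hx hy => rw [map_add]; exact Submodule.add_mem _ hx hy
  | smul r x _ hx => rw [map_smul]; exact Submodule.smul_mem _ _ hx

end

end Pool.Agent.Helper884.LieId
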