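import Mathlib
import Pool.Agent.Helper884.LieId.Tens

set_option autoImplicit false

/-!
The Lie polynomial is not zero.
-/

namespace Pool.Agent.Helper884.LieId

open Matrix TensorProduct
open Finset.HasAntidiagonal (antidiagonal)

section coeff

theorem eps_two_mul (r : ℕ) : eps (2 * r) = (-1) ^ r := by
  induction r with
  | zero => rfl
  | succ r ih =>
    rw [show 2 * (r + 1) = 2 * r + 1 + 1 by ring, eps, eps, ih, pow_succ (-1 : ℤ) (2 * r + 1),
      pow_succ (-1 : ℤ) (2 * r), pow_mul]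
    ring

theorem eps_two_mul_add_one (r : ℕ) : eps (2 * r + 1) = - (-1) ^ r := by
  rw [eps, eps_two_mul, pow_succ, pow_mul]
  simp

/-- The coefficient. -/
def CC (M : ℕ) : ℤ :=
  (∑ p ∈ antidiagonal (2 * M + 2), (((M + 1) * (2 * M + 4).choose (p.1 + 1) : ℕ) : ℤ) *
    (eps (2 * p.1 + 1) + eps (2 * p.2 + 1))) -
  (∑ p ∈ antidiagonal (2 * M + 3), (((4 * M + 9) * (2 * M + 4).choose (p.2 + 1) : ℕ) : ℤ) *
    (eps (2 * p.1) * (if p.2 = 0 then 0 else 1) - eps (2 * p.2) * (if p.1 = 0 then 0 else 1) +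
      ((if p.2 = 0 then 1 else 0) - (if p.1 = 0 then 1 else 0))))

theorem alt1 (M : ℕ) : ∑ p ∈ antidiagonal (2 * M + 3),
    ((2 * M + 4).choose (p.2 + 1) : ℤ) * (-1) ^ p.2 = 1 := by
  have h := sub_pow_ad (1 : ℤ) 1 (2 * M + 3 + 1)
  rw [Finset.Nat.sum_antidiagonal_succ'] at h
  simp only [sub_self, Nat.choose_zero_right, Nat.cast_one, pow_zero, mul_one, one_pow, pow_succ,
    mul_neg, Finset.sum_neg_distrib] at h
  linarith

theorem alt2 (M : ℕ) : ∑ p ∈ antidiagonal (2 * M + 2),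
    ((2 * M + 4).choose (p.1 + 1) : ℤ) * (-1) ^ p.1 = 2 := by
  have h := alt1 M
  rw [Finset.Nat.sum_antidiagonal_succ] at h
  have h2 : ((2 * M + 4).choose ((0, 2 * M + 2 + 1).2 + 1) : ℤ) * (-1) ^ (0, 2 * M + 2 + 1).2 =
      - 1 := by
    have : (2 * M + 4).choose (2 * M + 2 + 1 + 1) = 1 := Nat.choose_self _
    simp only [this]
    rw [show 2 * M + 2 + 1 = 2 * (M + 1) + 1 by ring, pow_succ, pow_mul]
    simp
  rw [h2] at h
  rw [← Finset.Nat.sum_antidiagonal_swap]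
  simp only [Prod.fst_swap]
  linarith

theorem CC_eq (M : ℕ) : CC M = - (4 * (M + 1) * (4 * M + 10)) := by
  have h1 : (∑ p ∈ antidiagonal (2 * M + 2), (((M + 1) * (2 * M + 4).choose (p.1 + 1) : ℕ) : ℤ) *
      (eps (2 * p.1 + 1) + eps (2 * p.2 + 1))) = (M + 1) * (-4) := by
    have : ∀ p ∈ antidiagonal (2 * M + 2), (((M + 1) * (2 * M + 4).choose (p.1 + 1) : ℕ) : ℤ) *
      (eps (2 * p.1 + 1) + eps (2 * p.2 + 1)) =
        (-2 * (M + 1)) * (((2 * M + 4).choose (p.1 + 1) : ℤ) * (-1) ^ p.1) := by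
      intro p hp
      rw [Finset.HasAntidiagonal.mem_antidiagonal] at hp
      rw [eps_two_mul_add_one, eps_two_mul_add_one]
      have e : (-1 : ℤ) ^ p.2 = (-1) ^ p.1 := by
        have h3 : (-1 : ℤ) ^ p.1 * (-1) ^ p.2 = 1 := by
          rw [← pow_add, hp, show 2 * M + 2 = 2 * (M + 1) by ring, pow_mul]; simp
        rcases neg_one_pow_eq_or ℤ p.1 with h | h <;> rw [h] at h3 ⊢ <;> linarith
      rw [e]
      push_cast
      ring
    rw [Finset.sum_congr rfl this, ← Finset.mul_sum, alt2]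
    ring
  have h2 : (∑ p ∈ antidiagonal (2 * M + 3),
      (((4 * M + 9) * (2 * M + 4).choose (p.2 + 1) : ℕ) : ℤ) *
      (eps (2 * p.1) * (if p.2 = 0 then 0 else 1) - eps (2 * p.2) * (if p.1 = 0 then 0 else 1) +
      ((if p.2 = 0 then 1 else 0) - (if p.1 = 0 then 1 else 0)))) = (4 * M + 9) * (4 * M + 4) := by
    have : ∀ p ∈ antidiagonal (2 * M + 3),
      (((4 * M + 9) * (2 * M + 4).choose (p.2 + 1) : ℕ) : ℤ) *
      (eps (2 * p.1) * (if p.2 = 0 then 0 else 1) - eps (2 * p.2) * (if p.1 = 0 then 0 else 1) +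
      ((if p.2 = 0 then 1 else 0) - (if p.1 = 0 then 1 else 0))) =
        (-2 * (4 * M + 9)) * (((2 * M + 4).choose (p.2 + 1) : ℤ) * (-1) ^ p.2) +
        ((2 * (4 * M + 9)) * (if p = (2 * M + 3, 0) then (2 * M + 4 : ℤ) else 0) -
          (2 * (4 * M + 9)) * (if p = (0, 2 * M + 3) then 1 else 0)) := by
      rintro ⟨a, b⟩ hp
      rw [Finset.HasAntidiagonal.mem_antidiagonal] at hp
      simp only at hp
      rw [eps_two_mul, eps_two_mul]
      simp only [Prod.mk.injEq]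
      have h3 : (-1 : ℤ) ^ a * (-1) ^ b = -1 := by
        rw [← pow_add, hp, show 2 * M + 3 = 2 * (M + 1) + 1 by ring, pow_succ, pow_mul]; simp
      rcases Nat.eq_zero_or_pos b with hb | hb
      · subst hb
        have ha : a = 2 * M + 3 := by omega
        subst ha
        simp
      · rcases Nat.eq_zero_or_pos a with ha | ha
        · subst ha
          have hb' : b = 2 * M + 3 := by omega
          subst hb'
          have h4 : (-1 : ℤ) ^ (2 * M + 3) = -1 := by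
            rw [show 2 * M + 3 = 2 * (M + 1) + 1 by ring, pow_succ, pow_mul]; simp
          simp [h4]
        · rw [if_neg (by omega), if_neg (by omega), if_neg (by omega), if_neg (by omega),
            if_neg (by omega), if_neg (by omega)]
          have e : (-1 : ℤ) ^ a = - (-1) ^ b := by
            rcases neg_one_pow_eq_or ℤ b with h | h <;> rw [h] at h3 ⊢ <;> linarith
          rw [e]
          push_cast
          ring
    rw [Finset.sum_congr rfl this, Finset.sum_add_distrib, ← Finset.mul_sum, alt1,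
      Finset.sum_sub_distrib, ← Finset.mul_sum, ← Finset.mul_sum, Finset.sum_ite_eq',
      Finset.sum_ite_eq', if_pos (Finset.HasAntidiagonal.mem_antidiagonal.2 (by simp)),
      if_pos (Finset.HasAntidiagonal.mem_antidiagonal.2 (by simp))]
    ring
  rw [CC, h1, h2]
  ring

theorem CC_ne_zero (M : ℕ) : CC M ≠ 0 := by
  rw [CC_eq]
  have : (0 : ℤ) < 4 * (M + 1) * (4 * M + 10) := by positivity
  omega

end coeff

section vec

variable {Λ : Type*} [Ring Λ] {m : Type*} [Fintype m] [DecidableEq m]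
  (τ : Matrix m m Λ →+* Matrix m m Λ) {X Y : Matrix m m Λ} {e0 e1 e2 : m → Λ}

theorem Dop_pow_mulVec {v : m → Λ} (hv : X *ᵥ v = 0) (z : Matrix m m Λ) (a : ℕ) :
    (Dop τ X ^ a) z *ᵥ v = X ^ a *ᵥ (z *ᵥ v) := by
  induction a with
  | zero => rw [Dop_pow_zero, pow_zero, one_mulVec]
  | succ a ih =>
    rw [Dop_pow_succ, Dop_apply, sub_mulVec, ← mulVec_mulVec, ← mulVec_mulVec, ih, hv, mulVec_zero,
      sub_zero, pow_succ', ← mulVec_mulVec]

variable (h0 : X *ᵥ e0 = 0) (h1 : X *ᵥ e1 = 0) (hY0 : Y *ᵥ e0 = e1) (hY1 : Y *ᵥ e1 = e2)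

include h0 h1 hY0 in
theorem u_e0 (a : ℕ) : (Dop τ X ^ a) Y *ᵥ e0 = if a = 0 then e1 else 0 := by
  rw [Dop_pow_mulVec τ h0, hY0]
  cases a with
  | zero => simp
  | succ a => rw [pow_succ, ← mulVec_mulVec, h1, mulVec_zero, if_neg (by omega)]

include h0 h1 hY0 hY1 in
theorem br_e0 (a b : ℕ) : (Dop τ X ^ a) ((Dop τ X ^ b) Y * Y - Y * (Dop τ X ^ b) Y) *ᵥ e0 =
    if b = 0 then 0 else X ^ (a + b) *ᵥ e2 := by
  rw [Dop_pow_mulVec τ h0, sub_mulVec, ← mulVec_mulVec, ← mulVec_mulVec, hY0,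
    u_e0 τ h0 h1 hY0, Dop_pow_mulVec τ h1, hY1]
  split_ifs with hb
  · subst hb
    rw [hY1, pow_zero, one_mulVec, sub_self, mulVec_zero]
  · rw [mulVec_zero, sub_zero, mulVec_mulVec, ← pow_add]

include h0 h1 hY0 hY1 in
theorem pr_e0 (a b : ℕ) : ((Dop τ X ^ a) Y * (Dop τ X ^ b) Y) *ᵥ e0 =
    if b = 0 then X ^ (a + b) *ᵥ e2 else 0 := by
  rw [← mulVec_mulVec, u_e0 τ h0 h1 hY0]
  split_ifs with hb
  · rw [Dop_pow_mulVec τ h1, hY1, hb, add_zero]
  · rw [mulVec_zero]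

omit [DecidableEq m] in
theorem sum_mulVec' {ι : Type*} (s : Finset ι) (f : ι → Matrix m m Λ) (v : m → Λ) :
    (∑ i ∈ s, f i) *ᵥ v = ∑ i ∈ s, f i *ᵥ v := by
  classical
  induction s using Finset.induction_on with
  | empty => simp
  | insert a s ha ih => rw [Finset.sum_insert ha, Finset.sum_insert ha, add_mulVec, ih]

omit [DecidableEq m] in
theorem zsmul_mulVec' (c : ℤ) (A : Matrix m m Λ) (v : m → Λ) : (c • A) *ᵥ v = c • (A *ᵥ v) :=
  smul_mulVec c A v

omit [DecidableEq m] in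
theorem nsmul_mulVec' (c : ℕ) (A : Matrix m m Λ) (v : m → Λ) : (c • A) *ᵥ v = c • (A *ᵥ v) :=
  smul_mulVec c A v

include h0 h1 hY0 hY1 in
theorem fsup_e0 (M : ℕ) : fsup τ M X Y *ᵥ e0 = CC M • (X ^ (4 * M + 6) *ᵥ e2) := by
  have hbr := br_e0 τ h0 h1 hY0 hY1
  have hpr := pr_e0 τ h0 h1 hY0 hY1
  rw [fsup, sub_mulVec, sum_mulVec', sum_mulVec', CC, sub_smul, Finset.sum_smul, Finset.sum_smul]
  congr 1
  · refine Finset.sum_congr rfl fun p hp => ?_
    rw [Finset.HasAntidiagonal.mem_antidiagonal] at hp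
    rw [nsmul_mulVec', add_mulVec, add_mulVec, add_mulVec, zsmul_mulVec', zsmul_mulVec',
      hbr, hbr, hpr, hpr, if_neg (by omega), if_neg (by omega), if_neg (by omega),
      if_neg (by omega), add_zero, add_zero,
      mul_smul (((M + 1) * (2 * M + 4).choose (p.1 + 1) : ℕ) : ℤ), Nat.cast_smul_eq_nsmul, add_smul,
      show 2 * p.1 + 1 + (2 * p.2 + 1) = 4 * M + 6 by omega,
      show 2 * p.2 + 1 + (2 * p.1 + 1) = 4 * M + 6 by omega]
  · refine Finset.sum_congr rfl fun p hp => ?_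
    rw [Finset.HasAntidiagonal.mem_antidiagonal] at hp
    rw [nsmul_mulVec', add_mulVec, sub_mulVec, sub_mulVec, zsmul_mulVec', zsmul_mulVec',
      hbr, hbr, hpr, hpr, mul_smul (((4 * M + 9) * (2 * M + 4).choose (p.2 + 1) : ℕ) : ℤ),
      Nat.cast_smul_eq_nsmul,
      show 2 * p.1 + 2 * p.2 = 4 * M + 6 by omega,
      show 2 * p.2 + 2 * p.1 = 4 * M + 6 by omega]
    congr 1
    have e1 : (2 * p.2 = 0) ↔ p.2 = 0 := by omega
    have e2 : (2 * p.1 = 0) ↔ p.1 = 0 := by omega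
    simp only [e1, e2, add_smul, sub_smul, ite_smul, mul_ite, mul_zero, mul_one, zero_smul,
      one_smul, smul_ite, smul_zero]

end vec

end Pool.Agent.Helper884.LieId
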