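import Mathlib
import Pool.Agent.Helper884.LieId.Nonzero

set_option autoImplicit false

/-!
`sl_n` and `gl_n` satisfy a Lie identity of degree `4n - 4` for `n ≥ 3`.
-/

namespace Pool.Agent.Helper884.LieId

open Matrix TensorProduct
open Finset.HasAntidiagonal (antidiagonal)

attribute [local instance 100] LieRing.ofAssociativeRing

universe u

section

variable (K : Type u) [Field K] (k : ℕ)

/-- The exterior algebra on `k + 1` generators. -/
abbrev Gr : Type u := ExteriorAlgebra K (Fin (k + 1) → K)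

/-- The grading automorphism. -/
noncomputable def sg : Gr K k →ₐ[K] Gr K k :=
  CliffordAlgebra.involute (Q := (0 : QuadraticForm K (Fin (k + 1) → K)))

theorem sg_sg (w : Gr K k) : sg K k (sg K k w) = w := CliffordAlgebra.involute_involute w

theorem sg_ι (v : Fin (k + 1) → K) : sg K k (ExteriorAlgebra.ι K v) = - ExteriorAlgebra.ι K v :=
  CliffordAlgebra.involute_ι v

theorem Od_ι (v : Fin (k + 1) → K) : Od (sg K k : Gr K k →+* Gr K k) (ExteriorAlgebra.ι K v) := by
  refine ⟨fun w => ?_, sg_ι K k v⟩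
  change _ = sg K k w * _
  induction w using ExteriorAlgebra.induction with
  | algebraMap r => rw [AlgHom.commutes]; exact (Algebra.commutes r _).symm
  | ι w =>
    rw [sg_ι, neg_mul]
    exact eq_neg_of_add_eq_zero_left (ExteriorAlgebra.ι_add_mul_swap v w)
  | mul a b ha hb => rw [← mul_assoc, ha, mul_assoc, hb, ← mul_assoc, map_mul]
  | add a b ha hb => rw [mul_add, map_add, add_mul, ha, hb]

theorem Ev_algebraMap (r : K) : Ev (sg K k : Gr K k →+* Gr K k) (algebraMap K _ r) :=
  ⟨fun w => Algebra.commutes r w, (sg K k).commutes r⟩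

/-- The basis vectors. -/
def bv (j : ℕ) : Fin (k + 1) → K := fun l => if (l : ℕ) = j then 1 else 0

/-- The odd generators. -/
noncomputable def th (i : ℕ) : Gr K k := ExteriorAlgebra.ι K (bv K k (i + 1))

/-- The extra odd generator. -/
noncomputable def th0 : Gr K k := ExteriorAlgebra.ι K (bv K k 0)

/-- The determinant functional. -/
noncomputable def detF : Gr K k →ₗ[K] K :=
  ExteriorAlgebra.liftAlternating (R := K)
    (fun i => if h : i = k + 1 then h ▸ (Matrix.detRowAlternating (n := Fin (k + 1)) (R := K)) else 0)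

theorem detF_prod : detF K k (th0 K k * ((List.range k).map (th K k)).prod) = 1 := by
  have h1 : th0 K k * ((List.range k).map (th K k)).prod =
      ExteriorAlgebra.ιMulti K (k + 1) (fun l : Fin (k + 1) => bv K k l) := by
    rw [ExteriorAlgebra.ιMulti_apply, List.ofFn_succ, List.prod_cons]
    congr 1
    congr 1
    apply List.ext_getElem
    · simp
    · intro i h h'
      simp [th]
  rw [h1, detF, ExteriorAlgebra.liftAlternating_apply_ιMulti]
  rw [dif_pos rfl]
  change Matrix.det _ = 1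
  have : (fun l : Fin (k + 1) => bv K k l) = (1 : Matrix (Fin (k + 1)) (Fin (k + 1)) K) := by
    ext i j
    rw [Matrix.one_apply, bv]
    simp [Fin.ext_iff, eq_comm]
  rw [this, Matrix.det_one]

/-- The functional `c ↦ det (θ₀ c)`. -/
noncomputable def piF : Gr K k →ₗ[K] K := detF K k ∘ₗ LinearMap.mulLeft K (th0 K k)

/-- The element of the free Lie algebra, in the free associative algebra. -/
noncomputable def ff (M : ℕ) : FreeAlgebra K ℕ :=
  PP (piF K k) (fsup (tauT (sg K k)) M (XT K (th K k) k) (1 ⊗ₜ FreeAlgebra.ι K k))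

theorem ff_mem (M : ℕ) : ff K k M ∈ LL K (4 * M + 8) :=
  PP_mem _ (fsup_mem (fun _ => Od_ι K k _) k (sg_sg K k) M)

variable {n : Type*} [Fintype n] [DecidableEq n]

theorem evT_fsup (a : ℕ → Matrix n n K) (M : ℕ) :
    evT a (fsup (tauT (sg K k)) M (XT K (th K k) k) (1 ⊗ₜ FreeAlgebra.ι K k)) =
      fsup (sg K k : Gr K k →+* Gr K k).mapMatrix M (evT a (XT K (th K k) k))
        (evT a (1 ⊗ₜ FreeAlgebra.ι K k)) :=
  map_fsup (evT a : _ →ₐ[K] Matrix n n (Gr K k)).toRingHom _ _ (evT_tauT (sg K k) a) M _ _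

theorem evT_XT (a : ℕ → Matrix n n K) (i j : n) : evT a (XT K (th K k) k) i j =
    ∑ l ∈ Finset.range k, th K k l * algebraMap K (Gr K k) (a l i j) := by
  rw [XT, map_sum, Matrix.sum_apply]
  refine Finset.sum_congr rfl fun l _ => ?_
  rw [evT_tmul, FreeAlgebra.lift_ι_apply]

theorem evT_y (a : ℕ → Matrix n n K) (i j : n) :
    evT a ((1 : Gr K k) ⊗ₜ FreeAlgebra.ι K k) i j = algebraMap K (Gr K k) (a k i j) := by
  rw [evT_tmul, FreeAlgebra.lift_ι_apply, one_mul]

theorem ff_vanish [CharZero K] (a : ℕ → Matrix n n K) (M : ℕ) (hM : Fintype.card n = M + 2 + 1) :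
    FreeAlgebra.lift K a (ff K k M) = 0 := by
  ext i j
  rw [ff, lift_PP, evT_fsup]
  have hX : OdM (sg K k : Gr K k →+* Gr K k) (evT a (XT K (th K k) k)) := by
    intro i j
    rw [evT_XT]
    exact Od.sum _ fun l _ => (Od_ι K k _).mul_ev (Ev_algebraMap K k _)
  have hy : EvM (sg K k : Gr K k →+* Gr K k) (evT a ((1 : Gr K k) ⊗ₜ FreeAlgebra.ι K k)) := by
    intro i j
    rw [evT_y]
    exact Ev_algebraMap K k _
  have h := fsup_vanish K (sg_sg K k) hX hy M hM (Od_ι K k (bv K k 0)) i j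
  exact (congrArg (detF K k) h).trans (map_zero _)

/-- Test matrices. -/
def tm (i : ℕ) : Matrix (Fin (k + 3)) (Fin (k + 3)) K :=
  fun r c => if (r : ℕ) + 1 = c ∧ (if i < k then (r : ℕ) = i else k ≤ (r : ℕ)) then 1 else 0

/-- Basis vectors. -/
noncomputable def ev (j : ℕ) : Fin (k + 3) → Gr K k := fun r => if (r : ℕ) = j then 1 else 0

theorem mulVec_ev (Z : Matrix (Fin (k + 3)) (Fin (k + 3)) (Gr K k)) (j : ℕ) (hj : j < k + 3)
    (r : Fin (k + 3)) : (Z *ᵥ ev K k j) r = Z r ⟨j, hj⟩ := by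
  rw [Matrix.mulVec, dotProduct, Finset.sum_eq_single (⟨j, hj⟩ : Fin (k + 3))]
  · simp [ev]
  · intro b _ hb
    rw [ev, if_neg (fun h => hb (Fin.ext h)), mul_zero]
  · intro h; exact absurd (Finset.mem_univ _) h

theorem X_apply (r c : Fin (k + 3)) : evT (tm K k) (XT K (th K k) k) r c =
    if (r : ℕ) + 1 = c ∧ (r : ℕ) < k then th K k r else 0 := by
  rw [evT_XT]
  by_cases h : (r : ℕ) + 1 = c ∧ (r : ℕ) < k
  · rw [if_pos h, Finset.sum_eq_single (r : ℕ)]
    · rw [tm, if_pos ⟨h.1, by rw [if_pos h.2]⟩, map_one, mul_one]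
    · intro l hl hne
      rw [Finset.mem_range] at hl
      rw [tm, if_neg, map_zero, mul_zero]
      rintro ⟨_, h2⟩
      rw [if_pos hl] at h2
      exact hne h2.symm
    · intro h'
      exact absurd (Finset.mem_range.2 h.2) h'
  · rw [if_neg h]
    refine Finset.sum_eq_zero fun l hl => ?_
    rw [Finset.mem_range] at hl
    rw [tm, if_neg, map_zero, mul_zero]
    rintro ⟨h1, h2⟩
    rw [if_pos hl] at h2
    exact h ⟨h1, by omega⟩

theorem Y_apply (r c : Fin (k + 3)) :
    evT (tm K k) ((1 : Gr K k) ⊗ₜ FreeAlgebra.ι K k) r c =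
      if (r : ℕ) + 1 = c ∧ k ≤ (r : ℕ) then 1 else 0 := by
  rw [evT_y, tm]
  simp only [lt_irrefl, if_false]
  split_ifs <;> simp

theorem X_pow_apply (j : ℕ) (hj : j ≤ k) (c : Fin (k + 3)) :
    (evT (tm K k) (XT K (th K k) k) ^ j) 0 c =
      if (c : ℕ) = j then ((List.range j).map (th K k)).prod else 0 := by
  induction j generalizing c with
  | zero =>
    rw [pow_zero, Matrix.one_apply]
    by_cases h : (c : ℕ) = 0
    · rw [if_pos h, if_pos (Fin.ext h.symm)]; simp
    · rw [if_neg h, if_neg (fun h' => h (by rw [← h']; rfl))]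
  | succ j ih =>
    rw [pow_succ, Matrix.mul_apply, Finset.sum_eq_single (⟨j, by omega⟩ : Fin (k + 3))]
    · rw [ih (by omega), if_pos rfl, X_apply, List.range_succ, List.map_append, List.prod_append]
      by_cases h : (c : ℕ) = j + 1
      · rw [if_pos h, if_pos ⟨h.symm, by simpa using hj⟩]
        simp
      · rw [if_neg h, if_neg (fun h' => h h'.1.symm), mul_zero]
    · intro b _ hb
      rw [ih (by omega), if_neg (fun h => hb (Fin.ext h)), zero_mul]
    · intro h; exact absurd (Finset.mem_univ _) h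

theorem ff_ne_zero [CharZero K] (M : ℕ) (hk : k = 4 * M + 6) : ff K k M ≠ 0 := by
  intro h0
  have h := congrArg (fun t => FreeAlgebra.lift K (tm K k) t 0 ⟨k + 2, by omega⟩) h0
  simp only [map_zero, Matrix.zero_apply] at h
  rw [ff, lift_PP, evT_fsup] at h
  set X := evT (tm K k) (XT K (th K k) k) with hX
  set Y := evT (tm K k) ((1 : Gr K k) ⊗ₜ FreeAlgebra.ι K k) with hY
  have e0 : X *ᵥ ev K k (k + 2) = 0 := by
    ext r
    rw [mulVec_ev K k X (k + 2) (by omega), hX, X_apply, if_neg]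
    · rfl
    · rintro ⟨h1, h2⟩
      simp only at h1
      omega
  have e1 : X *ᵥ ev K k (k + 1) = 0 := by
    ext r
    rw [mulVec_ev K k X (k + 1) (by omega), hX, X_apply, if_neg]
    · rfl
    · rintro ⟨h1, h2⟩
      simp only at h1
      omega
  have y0 : Y *ᵥ ev K k (k + 2) = ev K k (k + 1) := by
    ext r
    rw [mulVec_ev K k Y (k + 2) (by omega), hY, Y_apply, ev]
    simp only
    split_ifs <;> first | rfl | omega
  have y1 : Y *ᵥ ev K k (k + 1) = ev K k k := by
    ext r
    rw [mulVec_ev K k Y (k + 1) (by omega), hY, Y_apply, ev]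
    simp only
    split_ifs <;> first | rfl | omega
  have key := fsup_e0 (sg K k : Gr K k →+* Gr K k).mapMatrix e0 e1 y0 y1 M
  have key2 := congrFun key 0
  rw [mulVec_ev _ _ _ (k + 2) (by omega), Pi.smul_apply, mulVec_ev _ _ _ k (by omega), ← hk,
    X_pow_apply K k k le_rfl, if_pos rfl] at key2
  have h2 : piF K k (CC M • ((List.range k).map (th K k)).prod) = 0 := by
    rw [← key2]; exact h
  rw [map_zsmul, piF, LinearMap.comp_apply, LinearMap.mulLeft_apply, detF_prod] at h2
  have h3 : ((CC M : ℤ) : K) = 0 := by simpa using h2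
  exact CC_ne_zero M (Int.cast_eq_zero.1 h3)

/-- The main theorem, for all matrices. -/
theorem exists_identity [CharZero K] (M : ℕ) : ∃ f ∈ Homog K (4 * M + 8), f ≠ 0 ∧
    ∀ a : ℕ → Matrix (Fin (M + 3)) (Fin (M + 3)) K, FreeLieAlgebra.lift K a f = 0 := by
  obtain ⟨f, hf, hf2⟩ := ff_mem K (4 * M + 6) M
  refine ⟨f, hf, ?_, ?_⟩
  · rintro rfl
    exact ff_ne_zero K (4 * M + 6) M rfl (hf2.symm.trans (map_zero _))
  · intro a
    have h1 : (FreeLieAlgebra.lift K a : FreeLieAlgebra K ℕ →ₗ⁅K⁆ Matrix _ _ K) =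
        ((FreeAlgebra.lift K a : FreeAlgebra K ℕ →ₐ[K] Matrix _ _ K) :
          FreeAlgebra K ℕ →ₗ⁅K⁆ Matrix _ _ K).comp (toF K) := by
      apply FreeLieAlgebra.hom_ext
      intro x
      rw [FreeLieAlgebra.lift_of_apply, LieHom.comp_apply, toF, FreeLieAlgebra.lift_of_apply]
      exact (FreeAlgebra.lift_ι_apply a x).symm
    rw [h1, LieHom.comp_apply]
    have h2 : toF K f = ff K (4 * M + 6) M := hf2
    rw [h2]
    exact ff_vanish K (4 * M + 6) a M (by simp)

end

end Pool.Agent.Helper884.LieId
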